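import Pool.Agent.K7.H47.DM.Stm4

set_option autoImplicit false

open Polynomial

namespace Pool.Agent.K7.H21.D4

open Pool.Agent.K7.H47.DM4

theorem lead (hU : StU) (hB : StBlk) : StK := by
  classical
  intro ι _ _ t j cl ht hj hex
  obtain ⟨σ0, hσ0, hmax⟩ : ∃ σ0, Feas t j σ0 ∧ ∀ τ, Feas t j τ → Wt t cl τ ≤ Wt t cl σ0 := by
    obtain ⟨σ1, hσ1⟩ := hex
    obtain ⟨σ, hσ, h⟩ := Finset.exists_max_image (Finset.univ.filter (fun σ => Feas t j σ)) (Wt t cl)
      ⟨σ1, by simp [hσ1]⟩
    refine ⟨σ, (Finset.mem_filter.mp hσ).2, fun τ hτ => h τ (by simp [hτ])⟩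
  intro h0
  apply hB ι t j cl ht hj σ0 hσ0
  have h2 := congrArg (fun p : ℚ[X] => p.coeff (Wt t cl σ0)) h0
  simp only [coeff_zero] at h2
  refine Eq.trans ?_ h2
  rw [Matrix.det_apply, Matrix.det_apply, finsetSum_coeff]
  apply Finset.sum_congr rfl
  intro σ _
  have e1 : (∏ i, (Matrix.of fun r c => (C (((t r).choose (j c) : ℕ) : ℚ) * X ^ (cl c * t r) : ℚ[X])) (σ i) i)
      = C (∏ i, (((t (σ i)).choose (j i) : ℕ) : ℚ)) * X ^ (Wt t cl σ) := by
    simp only [Matrix.of_apply]
    rw [Finset.prod_mul_distrib, Finset.prod_pow_eq_pow_sum, map_prod]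
    rfl
  have e2 : (Equiv.Perm.sign σ • (∏ i, (Matrix.of fun r c =>
      (C (((t r).choose (j c) : ℕ) : ℚ) * X ^ (cl c * t r) : ℚ[X])) (σ i) i)).coeff (Wt t cl σ0) =
      Equiv.Perm.sign σ • (if Wt t cl σ0 = Wt t cl σ then ∏ i, (((t (σ i)).choose (j i) : ℕ) : ℚ) else 0) := by
    rw [e1]
    rcases Int.units_eq_one_or (Equiv.Perm.sign σ) with h | h
    · rw [h, one_smul, one_smul, coeff_C_mul_X_pow]
    · rw [h]
      simp only [Units.neg_smul, one_smul, coeff_neg, coeff_C_mul_X_pow]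
  rw [e2]
  congr 1
  simp only [Matrix.of_apply]
  by_cases hf : Feas t j σ
  · by_cases hw : Wt t cl σ0 = Wt t cl σ
    · rw [if_pos hw]
      apply Finset.prod_congr rfl
      intro c _
      have := hU ι t j cl ht σ0 σ hσ0 hf hmax (fun τ hτ => hw ▸ hmax τ hτ) (σ c)
      rw [if_pos (by rw [this, Equiv.symm_apply_apply])]
    · rw [if_neg hw]
      obtain ⟨c, hc⟩ : ∃ c, cl (σ0.symm (σ c)) ≠ cl c := by
        by_contra hcon
        push Not at hcon
        apply hw
        unfold Wt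
        calc ∑ c, cl c * t (σ0 c) = ∑ r, cl (σ0.symm r) * t r := by
              rw [← Equiv.sum_comp σ0 (fun r => cl (σ0.symm r) * t r)]
              simp only [Equiv.symm_apply_apply]
          _ = ∑ c, cl (σ0.symm (σ c)) * t (σ c) := by
              rw [← Equiv.sum_comp σ (fun r => cl (σ0.symm r) * t r)]
          _ = ∑ c, cl c * t (σ c) := by
              apply Finset.sum_congr rfl
              intro c _
              rw [hcon c]
      apply Finset.prod_eq_zero (Finset.mem_univ c)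
      rw [if_neg hc]
  · have hf' : ∃ c, t (σ c) < j c := by
      unfold Feas at hf
      push Not at hf
      exact hf
    obtain ⟨c, hc⟩ := hf'
    have hz : ((t (σ c)).choose (j c)) = 0 := Nat.choose_eq_zero_of_lt hc
    have r1 : (∏ i, (((t (σ i)).choose (j i) : ℕ) : ℚ)) = 0 := by
      apply Finset.prod_eq_zero (Finset.mem_univ c)
      rw [hz]; simp
    rw [r1, ite_self]
    apply Finset.prod_eq_zero (Finset.mem_univ c)
    rw [hz]; simp


end Pool.Agent.K7.H21.D4
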