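import Pool.Agent.K7.H47.DM.Stm4

set_option autoImplicit false

open Polynomial

namespace Pool.Agent.K7.H21.D4

open Pool.Agent.K7.H47.DM4

theorem rolle (Q : ℝ[X]) (hQ' : derivative Q ≠ 0) :
    (Q.roots.toFinset.filter (fun x => 0 ≤ x ∧ x ≤ 1)).card ≤
      ((derivative Q).roots.toFinset.filter (fun x => 0 < x ∧ x < 1)).card + 1 := by
  have hQ : Q ≠ 0 := by rintro rfl; simp at hQ'
  apply Finset.card_le_of_interleaved
  intro x hx y hy hxy _
  rw [Finset.mem_filter, Multiset.mem_toFinset, mem_roots hQ, IsRoot] at hx hy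
  obtain ⟨z, hz1, hz2⟩ := exists_deriv_eq_zero hxy Q.continuousOn (by rw [hx.1, hy.1])
  refine ⟨z, ?_, hz1⟩
  rw [Polynomial.deriv] at hz2
  rw [Finset.mem_filter, Multiset.mem_toFinset, mem_roots hQ', IsRoot]
  exact ⟨hz2, by linarith [hz1.1, hx.2.1], by linarith [hz1.2, hy.2.2]⟩

/-- number of roots in the open interval -/
noncomputable def Z (Q : ℝ[X]) : ℕ := (Q.roots.toFinset.filter (fun x => 0 < x ∧ x < 1)).card

theorem step (Q : ℝ[X]) (hQ : Q ≠ 0) (hQ' : derivative Q ≠ 0) :
    Z Q + (if Q.eval 0 = 0 then 1 else 0) + (if Q.eval 1 = 0 then 1 else 0) ≤ Z (derivative Q) + 1 := by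
  classical
  refine le_trans ?_ (rolle Q hQ')
  unfold Z
  set A := Q.roots.toFinset.filter (fun x => 0 < x ∧ x < 1) with hA
  have h0 : (0 : ℝ) ∉ A := by simp [hA]
  have h1 : (1 : ℝ) ∉ A := by simp [hA]
  have hsub : A ⊆ Q.roots.toFinset.filter (fun x => 0 ≤ x ∧ x ≤ 1) := by
    intro x hx
    rw [hA, Finset.mem_filter] at hx
    rw [Finset.mem_filter]
    exact ⟨hx.1, hx.2.1.le, hx.2.2.le⟩
  have m0 : Q.eval 0 = 0 → (0 : ℝ) ∈ Q.roots.toFinset.filter (fun x => 0 ≤ x ∧ x ≤ 1) := by
    intro h
    rw [Finset.mem_filter, Multiset.mem_toFinset, mem_roots hQ]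
    exact ⟨h, le_refl _, zero_le_one⟩
  have m1 : Q.eval 1 = 0 → (1 : ℝ) ∈ Q.roots.toFinset.filter (fun x => 0 ≤ x ∧ x ≤ 1) := by
    intro h
    rw [Finset.mem_filter, Multiset.mem_toFinset, mem_roots hQ]
    exact ⟨h, zero_le_one, le_refl _⟩
  by_cases e0 : Q.eval 0 = 0
  · by_cases e1 : Q.eval 1 = 0
    · rw [if_pos e0, if_pos e1, ← Finset.card_insert_of_notMem h0]
      have h1' : (1 : ℝ) ∉ insert 0 A := by
        rw [Finset.mem_insert]; push Not; exact ⟨one_ne_zero, h1⟩
      rw [← Finset.card_insert_of_notMem h1']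
      apply Finset.card_le_card
      rw [Finset.insert_subset_iff, Finset.insert_subset_iff]
      exact ⟨m1 e1, m0 e0, hsub⟩
    · rw [if_pos e0, if_neg e1, add_zero, ← Finset.card_insert_of_notMem h0]
      apply Finset.card_le_card
      rw [Finset.insert_subset_iff]
      exact ⟨m0 e0, hsub⟩
  · by_cases e1 : Q.eval 1 = 0
    · rw [if_neg e0, if_pos e1, add_zero, ← Finset.card_insert_of_notMem h1]
      apply Finset.card_le_card
      rw [Finset.insert_subset_iff]
      exact ⟨m1 e1, hsub⟩
    · rw [if_neg e0, if_neg e1, add_zero, add_zero]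
      exact Finset.card_le_card hsub

theorem filt (S : Finset ℕ) (k : ℕ) : (S.filter (fun i => i < k + 1)).card =
    (S.filter (fun i => i < k)).card + if k ∈ S then 1 else 0 := by
  by_cases h : k ∈ S
  · rw [if_pos h]
    have e : S.filter (fun i => i < k + 1) = insert k (S.filter (fun i => i < k)) := by
      ext i
      rw [Finset.mem_insert, Finset.mem_filter, Finset.mem_filter]
      constructor
      · rintro ⟨h1, h2⟩
        rcases Nat.lt_succ_iff_lt_or_eq.mp h2 with h3 | h3
        · exact Or.inr ⟨h1, h3⟩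
        · exact Or.inl h3
      · rintro (h1 | h1)
        · subst h1; exact ⟨h, Nat.lt_succ_self _⟩
        · exact ⟨h1.1, by omega⟩
    rw [e, Finset.card_insert_of_notMem (by simp)]
  · rw [if_neg h, add_zero]
    congr 1
    ext i
    rw [Finset.mem_filter, Finset.mem_filter]
    constructor
    · rintro ⟨h1, h2⟩
      refine ⟨h1, ?_⟩
      rcases Nat.lt_succ_iff_lt_or_eq.mp h2 with h3 | h3
      · exact h3
      · subst h3; exact absurd h1 h
    · rintro ⟨h1, h2⟩
      exact ⟨h1, by omega⟩

theorem ne0 (P : ℝ[X]) (hP : P ≠ 0) (k : ℕ) (hk : k ≤ P.natDegree) : derivative^[k] P ≠ 0 := by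
  intro h
  have h1 := congrArg (fun q : ℝ[X] => q.coeff (P.natDegree - k)) h
  simp only [coeff_zero] at h1
  rw [coeff_iterate_derivative, Nat.sub_add_cancel hk, nsmul_eq_mul, mul_eq_zero] at h1
  rcases h1 with h1 | h1
  · have : (P.natDegree).descFactorial k = 0 := by exact_mod_cast h1
    rw [Nat.descFactorial_eq_zero_iff_lt] at this
    omega
  · exact hP (leadingCoeff_eq_zero.mp h1)

theorem main (P : ℝ[X]) (hP : P ≠ 0) (J : Finset ℕ) (hJ : ∀ j ∈ J, (derivative^[j] P).eval 1 = 0)
    (k : ℕ) (hk : k ≤ P.natDegree) : (J.filter (fun i => i < k)).card ≤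
      Z (derivative^[k] P) + (P.support.filter (fun i => i < k)).card := by
  induction k with
  | zero => simp
  | succ k ih =>
    have ih := ih (by omega)
    rw [filt, filt, Function.iterate_succ_apply']
    have hs := step (derivative^[k] P) (ne0 P hP k (by omega)) (by
      rw [← Function.iterate_succ_apply' derivative k P]; exact ne0 P hP (k + 1) hk)
    have a1 : (if k ∈ J then 1 else 0) ≤ (if (derivative^[k] P).eval 1 = 0 then 1 else 0) := by
      by_cases h : k ∈ J
      · rw [if_pos h, if_pos (hJ k h)]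
      · rw [if_neg h]; exact Nat.zero_le _
    have a2 : 1 ≤ (if (derivative^[k] P).eval 0 = 0 then 1 else 0) + (if k ∈ P.support then 1 else 0) := by
      by_cases h : k ∈ P.support
      · rw [if_pos h]; omega
      · have : (derivative^[k] P).eval 0 = 0 := by
          rw [← coeff_zero_eq_eval_zero, coeff_iterate_derivative, zero_add,
            notMem_support_iff.mp h, smul_zero]
        rw [if_pos this, if_neg h]
    omega

theorem last (P : ℝ[X]) (hP : P ≠ 0) : Z (derivative^[P.natDegree] P) = 0 ∧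
    (derivative^[P.natDegree] P).eval 1 ≠ 0 := by
  have h1 : (derivative^[P.natDegree] P).natDegree = 0 := by
    have := natDegree_iterate_derivative P P.natDegree
    omega
  have h2 := ne0 P hP P.natDegree le_rfl
  rw [eq_C_of_natDegree_eq_zero h1] at h2 ⊢
  constructor
  · unfold Z; rw [roots_C]; simp
  · rw [eval_C]
    intro h
    rw [h, C_0] at h2
    exact h2 rfl

theorem p : StP := by
  classical
  intro ι _ _ t j ht hj hle h0
  obtain ⟨v, hv0, hv⟩ := Matrix.exists_vecMul_eq_zero_iff.mpr h0
  obtain ⟨r0, hr0⟩ : ∃ r, v r ≠ 0 := by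
    by_contra hcon
    push Not at hcon
    exact hv0 (funext hcon)
  obtain ⟨P, hPd⟩ : ∃ P : ℝ[X], P = ∑ r, C ((v r : ℚ) : ℝ) * X ^ (t r) := ⟨_, rfl⟩
  have hcoef : ∀ n, P.coeff n = ∑ r, if n = t r then ((v r : ℚ) : ℝ) else 0 := by
    intro n
    rw [hPd, finsetSum_coeff]
    simp only [coeff_C_mul_X_pow]
  have hP : P ≠ 0 := by
    intro h
    have h1 := hcoef (t r0)
    rw [h, coeff_zero, Finset.sum_eq_single r0] at h1
    · rw [if_pos rfl] at h1
      exact hr0 (by exact_mod_cast h1.symm)
    · intro b _ hb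
      rw [if_neg (fun h => hb (ht h.symm))]
    · intro h; exact absurd (Finset.mem_univ _) h
  have hder : ∀ c, (derivative^[j c] P).eval 1 = 0 := by
    intro c
    have h1 := congrFun hv c
    rw [Matrix.vecMul, dotProduct] at h1
    simp only [Matrix.of_apply, Pi.zero_apply] at h1
    have h2 : (derivative^[j c] P).eval 1 = ∑ r, ((v r : ℚ) : ℝ) * ((t r).descFactorial (j c) : ℝ) := by
      rw [hPd, iterate_derivative_sum, eval_finsetSum]
      apply Finset.sum_congr rfl
      intro r _
      rw [iterate_derivative_C_mul, iterate_derivative_X_pow_eq_natCast_mul]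
      simp
    rw [h2]
    have h3 : ∀ r, ((v r : ℚ) : ℝ) * ((t r).descFactorial (j c) : ℝ) =
        ((j c).factorial : ℝ) * (((v r * ((t r).choose (j c) : ℕ) : ℚ)) : ℝ) := by
      intro r
      rw [Nat.descFactorial_eq_factorial_mul_choose]
      push_cast
      ring
    rw [Finset.sum_congr rfl (fun r _ => h3 r), ← Finset.mul_sum]
    have h4 : (∑ r, (((v r * ((t r).choose (j c) : ℕ) : ℚ)) : ℝ)) = 0 := by
      rw [← Rat.cast_sum]
      exact_mod_cast h1
    rw [h4, mul_zero]
  have hmain := main P hP (Finset.univ.image j) (by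
    intro i hi
    obtain ⟨c, _, rfl⟩ := Finset.mem_image.mp hi
    exact hder c) P.natDegree le_rfl
  obtain ⟨l1, l2⟩ := last P hP
  rw [l1, zero_add] at hmain
  have hdeg : P.natDegree ∈ P.support := natDegree_mem_support_of_nonzero hP
  have hlt : (P.support.filter (fun i => i < P.natDegree)).card < P.support.card := by
    apply Finset.card_lt_card
    rw [Finset.ssubset_iff_of_subset (Finset.filter_subset _ _)]
    exact ⟨P.natDegree, hdeg, by simp⟩
  have hsub1 : P.support ⊆ (Finset.univ.filter (fun r => t r ∈ P.support)).image t := by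
    intro n hn
    have h1 := mem_support_iff.mp hn
    rw [hcoef] at h1
    obtain ⟨r, _, hr⟩ := Finset.exists_ne_zero_of_sum_ne_zero h1
    have : n = t r := by
      by_contra h
      rw [if_neg h] at hr
      exact hr rfl
    subst this
    exact Finset.mem_image.mpr ⟨r, Finset.mem_filter.mpr ⟨Finset.mem_univ _, hn⟩, rfl⟩
  have hsub2 : (Finset.univ.filter (fun r => t r ∈ P.support)).image j ⊆
      (Finset.univ.image j).filter (fun i => i < P.natDegree) := by
    intro n hn
    obtain ⟨r, hr, rfl⟩ := Finset.mem_image.mp hn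
    rw [Finset.mem_filter]
    refine ⟨Finset.mem_image_of_mem _ (Finset.mem_univ _), ?_⟩
    have h1 := le_natDegree_of_mem_supp _ (Finset.mem_filter.mp hr).2
    have h2 := hle r
    rcases Nat.lt_or_ge (j r) P.natDegree with h | h
    · exact h
    · exfalso
      have : j r = P.natDegree := by omega
      apply l2
      rw [← this]
      exact hder r
  have c1 := Finset.card_le_card hsub1
  have c2 := Finset.card_image_le (s := Finset.univ.filter (fun r => t r ∈ P.support)) (f := t)
  have c3 := Finset.card_le_card hsub2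
  rw [Finset.card_image_of_injective _ hj] at c3
  omega


end Pool.Agent.K7.H21.D4
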