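import Pool.Agent.K7.H72.IP.Stm

/-!
# Project IP, job SUB (helper21): induced subgraphs
-/

set_option autoImplicit false

namespace Pool.Agent.K7.H21.IPSUB

open SimpleGraph Pool.Agent.K7.H72.IP
open scoped Classical

/-- the extremal number is monotone in the number of vertices, if no vertex is isolated -/
theorem ex_mono {V : Type} (H : SimpleGraph V) (hH : ∀ v, ∃ w, H.Adj v w) {n' n : ℕ}
    (h : n' ≤ n) : extremalNumber n' H ≤ extremalNumber n H := by
  have h0 := (extremalNumber_le_iff (V := Fin n') H (extremalNumber n H)).2 ?_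
  · simpa using h0
  intro G _ hG
  have hF : H.Free (G.map (Fin.castLEEmb h)) := by
    rintro ⟨φ⟩
    apply hG
    have h1 : ∀ v, ∃ a : Fin n', Fin.castLEEmb h a = φ v := by
      intro v
      obtain ⟨w, hw⟩ := hH v
      have h2 := φ.toHom.map_adj hw
      obtain ⟨a, b, -, ha, -⟩ := (SimpleGraph.map_adj _ _ _ _).1 h2
      exact ⟨a, ha⟩
    choose ψ hψ using h1
    refine ⟨⟨⟨ψ, ?_⟩, ?_⟩⟩
    · intro a b hab
      have h2 := φ.toHom.map_adj hab
      obtain ⟨x, y, hxy, hx, hy⟩ := (SimpleGraph.map_adj _ _ _ _).1 h2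
      have hx' : x = ψ a := (Fin.castLEEmb h).injective (by rw [hψ]; exact hx)
      have hy' : y = ψ b := (Fin.castLEEmb h).injective (by rw [hψ]; exact hy)
      rw [← hx', ← hy']
      exact hxy
    · intro a b hab
      apply φ.injective
      show φ a = φ b
      rw [← hψ a, ← hψ b]
      exact congrArg _ hab
  have h2 := card_edgeFinset_le_extremalNumber hF
  rw [Fintype.card_fin] at h2
  refine le_trans ?_ h2
  rw [← Set.ncard_coe_finset, ← Set.ncard_coe_finset, coe_edgeFinset, coe_edgeFinset]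
  have h3 : (Sym2.map (Fin.castLEEmb h)) '' G.edgeSet ⊆ (G.map (Fin.castLEEmb h)).edgeSet := by
    rintro _ ⟨z, hz, rfl⟩
    induction z using Sym2.ind with
    | _ x y =>
      rw [Sym2.map_mk]
      exact (SimpleGraph.map_adj _ _ _ _).2 ⟨x, y, hz, rfl, rfl⟩
  have h4 : ((Sym2.map (Fin.castLEEmb h)) '' G.edgeSet).ncard = G.edgeSet.ncard :=
    Set.ncard_image_of_injective _ (Sym2.map.injective (Fin.castLEEmb h).injective)
  rw [← h4]
  exact Set.ncard_le_ncard h3 (Set.toFinite _)

theorem t : StSub := by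
  intro V H f hH hQ t ht n hn G hK S hS
  obtain ⟨n', hn'⟩ : ∃ n', n' = S.card := ⟨_, rfl⟩
  have hle : n' ≤ n := by
    rw [hn']
    exact (Finset.card_le_univ S).trans (le_of_eq (Fintype.card_fin n))
  have hexle : (extremalNumber n' H : ℝ) ≤ extremalNumber n H := by
    exact_mod_cast ex_mono H hH hle
  let e : Fin n' ↪o Fin n := S.orderEmbOfFin hn'.symm
  have he : ∀ i, e i ∈ S := fun i => S.orderEmbOfFin_mem hn'.symm i
  have hrange : ∀ x ∈ S, ∃ i, e i = x := by
    intro x hx
    have := S.range_orderEmbOfFin hn'.symm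
    have h1 : x ∈ Set.range (S.orderEmbOfFin hn'.symm) := by rw [this]; exact hx
    exact h1
  let G' : SimpleGraph (Fin n') := G.comap e
  have hcard : eIn G S ≤ G'.edgeSet.ncard := by
    unfold eIn
    have h1 : {z : Sym2 (Fin n) | z ∈ G.edgeSet ∧ ∀ x ∈ z, x ∈ S} ⊆
        (Sym2.map e) '' G'.edgeSet := by
      rintro z ⟨hz, hz2⟩
      induction z using Sym2.ind with
      | _ x y =>
        obtain ⟨i, hi⟩ := hrange x (hz2 x (by simp))
        obtain ⟨j, hj⟩ := hrange y (hz2 y (by simp))
        refine ⟨s(i, j), ?_, ?_⟩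
        · show G.Adj (e i) (e j)
          rw [hi, hj]
          exact hz
        · rw [Sym2.map_mk, hi, hj]
    exact (Set.ncard_le_ncard h1 (Set.toFinite _)).trans (Set.ncard_image_le (Set.toFinite _))
  rcases Nat.eq_zero_or_pos n' with h0 | h0
  · have h1 : G'.edgeSet.ncard = 0 := by
      rw [Set.ncard_eq_zero (Set.toFinite _), Set.eq_empty_iff_forall_notMem]
      intro z hz
      induction z using Sym2.ind with
      | _ x y =>
        have := x.2
        omega
    have h2 : eIn G S = 0 := by omega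
    rw [h2]
    push_cast
    positivity
  have hemp : IsEmpty (H ↪g G') := by
    constructor
    intro φ
    apply hS
    refine ⟨⟨⟨fun x => e (φ x), fun x y hxy => φ.injective (e.injective hxy)⟩, ?_⟩,
      fun x => he _⟩
    intro a b
    exact φ.map_rel_iff
  have hNo : NoK t G' := by
    intro hc
    apply hK
    refine hc.trans ⟨⟨⟨e, ?_⟩, e.injective⟩⟩
    intro a b hab
    exact hab
  have h1 := hQ t ht n' h0 G' hemp hNo
  calc (eIn G S : ℝ) ≤ (G'.edgeSet.ncard : ℝ) := by exact_mod_cast hcard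
    _ ≤ f t * (extremalNumber n' H : ℝ) := h1
    _ ≤ |f t| * (extremalNumber n' H : ℝ) :=
        mul_le_mul_of_nonneg_right (le_abs_self _) (Nat.cast_nonneg _)
    _ ≤ |f t| * (extremalNumber n H : ℝ) := mul_le_mul_of_nonneg_left hexle (abs_nonneg _)

end Pool.Agent.K7.H21.IPSUB
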