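import Pool.Agent.K7.H39.IQ.Stm

set_option autoImplicit false

/-!
# Job CPT of project IQ: truncated tetrahedra are convex bodies
-/

namespace Pool.Agent.K7.H21.IQ

open Metric Set MeasureTheory Filter Topology Pool.Agent.K7.H39.Cube Pool.Agent.K7.H39.IQ

theorem coord_cont (i : Fin 3) : Continuous fun x : E3 => x i := by
  fun_prop

theorem y_cont (i : Fin 4) : Continuous fun x : E3 => y i x := by
  have h0 := coord_cont 0
  have h1 := coord_cont 1
  have h2 := coord_cont 2
  fin_cases i
  · show Continuous fun x : E3 => x 0 + x 1 + x 2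
    exact (h0.add h1).add h2
  · show Continuous fun x : E3 => x 0 - x 1 - x 2
    exact (h0.sub h1).sub h2
  · show Continuous fun x : E3 => -x 0 + x 1 - x 2
    exact (h0.neg.add h1).sub h2
  · show Continuous fun x : E3 => -x 0 - x 1 + x 2
    exact (h0.neg.sub h1).add h2

theorem y_lin (i : Fin 4) (a b : ℝ) (x z : E3) : y i (a • x + b • z) = a * y i x + b * y i z := by
  have e : ∀ j : Fin 3, (a • x + b • z) j = a * x j + b * z j := fun j => by
    simp
  fin_cases i <;> simp [y] <;> ring

theorem coord_bound {α β : ℝ} (hα : 0 < α) (h : α ≤ β) {x : E3} (hx : x ∈ B α β) (j : Fin 3) :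
    |x j| ≤ β := by
  have e0 := hx 0
  have e1 := hx 1
  have e2 := hx 2
  have e3 := hx 3
  simp only [y, Matrix.cons_val_zero, Matrix.cons_val_one, Matrix.cons_val] at e0 e1 e2 e3
  rw [abs_le]
  fin_cases j
  · constructor <;> simp only [Fin.zero_eta] <;> linarith [e0.1, e0.2, e1.1, e1.2, e2.1, e2.2, e3.1, e3.2]
  · constructor <;> simp only [Fin.mk_one] <;> linarith [e0.1, e0.2, e1.1, e1.2, e2.1, e2.2, e3.1, e3.2]
  · constructor <;> simp only [Fin.reduceFinMk] <;> linarith [e0.1, e0.2, e1.1, e1.2, e2.1, e2.2, e3.1, e3.2]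

theorem cpt : S_CPT := by
  intro α β hα h
  have hclosed : IsClosed (B α β) := by
    have : B α β = ⋂ i : Fin 4, {x : E3 | -α ≤ y i x} ∩ {x : E3 | y i x ≤ β} := by
      ext x
      simp [B]
    rw [this]
    refine isClosed_iInter fun i => IsClosed.inter ?_ ?_
    · exact isClosed_le continuous_const (y_cont i)
    · exact isClosed_le (y_cont i) continuous_const
  refine ⟨?_, ?_, ?_⟩
  · refine Metric.isCompact_of_isClosed_isBounded hclosed ?_
    rw [Metric.isBounded_iff_subset_closedBall 0]
    refine ⟨2 * β, fun x hx => ?_⟩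
    rw [mem_closedBall_zero_iff, EuclideanSpace.norm_eq]
    rw [Real.sqrt_le_left (by linarith), Fin.sum_univ_three]
    have b0 := coord_bound hα h hx 0
    have b1 := coord_bound hα h hx 1
    have b2 := coord_bound hα h hx 2
    have c : ∀ t : ℝ, |t| ≤ β → ‖t‖ ^ 2 ≤ β ^ 2 := fun t ht => by
      rw [Real.norm_eq_abs]
      exact pow_le_pow_left₀ (abs_nonneg _) ht 2
    have c0 := c _ b0
    have c1 := c _ b1
    have c2 := c _ b2
    nlinarith [sq_nonneg β]
  · intro x hx z hz a b ha hb hab i
    have h1 := hx i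
    have h2 := hz i
    rw [y_lin]
    constructor
    · nlinarith [mul_le_mul_of_nonneg_left h1.1 ha, mul_le_mul_of_nonneg_left h2.1 hb]
    · nlinarith [mul_le_mul_of_nonneg_left h1.2 ha, mul_le_mul_of_nonneg_left h2.2 hb]
  · refine ⟨0, ?_⟩
    rw [mem_interior]
    refine ⟨⋂ i : Fin 4, {x : E3 | -α < y i x} ∩ {x : E3 | y i x < β}, ?_, ?_, ?_⟩
    · intro x hx i
      have := Set.mem_iInter.1 hx i
      exact ⟨this.1.le, this.2.le⟩
    · refine isOpen_iInter_of_finite fun i => IsOpen.inter ?_ ?_
      · exact isOpen_lt continuous_const (y_cont i)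
      · exact isOpen_lt (y_cont i) continuous_const
    · rw [Set.mem_iInter]
      intro i
      have h0 : y i (0 : E3) = 0 := by
        fin_cases i <;> simp [y]
      constructor
      · show -α < y i 0
        rw [h0]; linarith
      · show y i 0 < β
        rw [h0]; linarith

end Pool.Agent.K7.H21.IQ
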