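import Pool.Agent.K7.H49.ML.Stm

set_option autoImplicit false

/-!
# Job IND of project ML: independent quadruples
-/

open Finset

namespace Pool.Agent.K7.H21.ML

open Pool.Agent.K7.H49.ML

theorem log_sep_aux {N n n' : ℕ} (hn' : 1 ≤ n') (hnN : n ≤ N) (h : n' < n) :
    1 / (N : ℝ) ≤ Real.log n - Real.log n' := by
  have h1 : (0 : ℝ) < n' := by exact_mod_cast hn'
  have h2 : (0 : ℝ) < n := by exact_mod_cast (by omega : 0 < n)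
  have h3 : (0 : ℝ) < N := by exact_mod_cast (by omega : 0 < N)
  have h4 := Real.one_sub_inv_le_log_of_pos (x := (n : ℝ) / n') (div_pos h2 h1)
  rw [Real.log_div h2.ne' h1.ne', inv_div] at h4
  refine le_trans ?_ h4
  have h5 : (n' : ℝ) + 1 ≤ n := by exact_mod_cast h
  have h6 : (n : ℝ) ≤ N := by exact_mod_cast hnN
  calc 1 / (N : ℝ) ≤ 1 / n := one_div_le_one_div_of_le h2 h6
    _ ≤ 1 - (n' : ℝ) / n := by
      rw [le_sub_iff_add_le, ← add_div, div_le_one h2]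
      linarith

theorem log_sep {N n n' : ℕ} (hn : 1 ≤ n ∧ n ≤ N) (hn' : 1 ≤ n' ∧ n' ≤ N) (h : n ≠ n') :
    1 / (N : ℝ) ≤ |Real.log n - Real.log n'| := by
  rcases lt_or_gt_of_ne h with h | h
  · rw [abs_sub_comm]
    exact (log_sep_aux hn.1 hn'.2 h).trans (le_abs_self _)
  · exact (log_sep_aux hn'.1 hn.2 h).trans (le_abs_self _)

theorem log_bound {N n n' : ℕ} (hn : 1 ≤ n ∧ n ≤ N) (hn' : 1 ≤ n' ∧ n' ≤ N) :
    |Real.log n - Real.log n'| ≤ N := by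
  have h1 : (1 : ℝ) ≤ n := by exact_mod_cast hn.1
  have h2 : (n : ℝ) ≤ N := by exact_mod_cast hn.2
  have h3 : (1 : ℝ) ≤ n' := by exact_mod_cast hn'.1
  have h4 : (n' : ℝ) ≤ N := by exact_mod_cast hn'.2
  have h5 := Real.log_nonneg h1
  have h6 := Real.log_nonneg h3
  have h7 := Real.log_le_sub_one_of_pos (x := (n : ℝ)) (by linarith)
  have h8 := Real.log_le_sub_one_of_pos (x := (n' : ℝ)) (by linarith)
  rw [abs_le]
  constructor <;> linarith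

/-- Cramer's rule with bounds -/
theorem cramer {A₁ A₂ A₃ B₁ B₂ B₃ C₁ C₂ C₃ : ℤ} {B : ℕ} (hA₁ : |A₁| ≤ B) (hA₂ : |A₂| ≤ B)
    (hA₃ : |A₃| ≤ B) (hB₁ : |B₁| ≤ B) (hB₂ : |B₂| ≤ B) (hB₃ : |B₃| ≤ B) (hC₁ : |C₁| ≤ B)
    (hC₂ : |C₂| ≤ B) (hC₃ : |C₃| ≤ B)
    (hD : A₁ * (B₂ * C₃ - C₂ * B₃) - B₁ * (A₂ * C₃ - C₂ * A₃) + C₁ * (A₂ * B₃ - B₂ * A₃) ≠ 0)
    {x y z u v w σ : ℝ} (hu : u = A₁ * x + B₁ * y + C₁ * z) (hv : v = A₂ * x + B₂ * y + C₂ * z)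
    (hw : w = A₃ * x + B₃ * y + C₃ * z) (hu' : |u| < σ) (hv' : |v| < σ) (hw' : |w| < σ)
    (hB : 1 ≤ B) :
    |x| < 6 * (B : ℝ) ^ 2 * σ ∧ |y| < 6 * (B : ℝ) ^ 2 * σ ∧ |z| < 6 * (B : ℝ) ^ 2 * σ := by
  set D : ℤ := A₁ * (B₂ * C₃ - C₂ * B₃) - B₁ * (A₂ * C₃ - C₂ * A₃) + C₁ * (A₂ * B₃ - B₂ * A₃)
    with hDdef
  have hD1 : (1 : ℝ) ≤ |(D : ℝ)| := by
    have : (1 : ℤ) ≤ |D| := Int.one_le_abs hD
    exact_mod_cast this
  have hσ : 0 < σ := lt_of_le_of_lt (abs_nonneg _) hu'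
  have hBp : (1 : ℝ) ≤ B := by exact_mod_cast hB
  have c : ∀ {X : ℤ}, |X| ≤ B → |(X : ℝ)| ≤ B := by
    intro X h
    exact_mod_cast h
  have minor : ∀ {P Q R S : ℤ}, |P| ≤ B → |Q| ≤ B → |R| ≤ B → |S| ≤ B →
      |(P : ℝ) * Q - R * S| ≤ 2 * (B : ℝ) ^ 2 := by
    intro P Q R S hP hQ hR hS
    have h1 : |(P : ℝ) * Q| ≤ B * B := by
      rw [abs_mul]
      exact mul_le_mul (c hP) (c hQ) (abs_nonneg _) (by positivity)
    have h2 : |(R : ℝ) * S| ≤ B * B := by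
      rw [abs_mul]
      exact mul_le_mul (c hR) (c hS) (abs_nonneg _) (by positivity)
    calc |(P : ℝ) * Q - R * S| ≤ |(P : ℝ) * Q| + |(R : ℝ) * S| := abs_sub _ _
      _ ≤ 2 * (B : ℝ) ^ 2 := by nlinarith
  have key : ∀ {t p q r : ℝ}, |p| ≤ 2 * (B : ℝ) ^ 2 → |q| ≤ 2 * (B : ℝ) ^ 2 →
      |r| ≤ 2 * (B : ℝ) ^ 2 → (D : ℝ) * t = u * p + v * q + w * r →
      |t| < 6 * (B : ℝ) ^ 2 * σ := by
    intro t p q r hp hq hr ht
    have hb : (0 : ℝ) < 2 * (B : ℝ) ^ 2 := by positivity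
    have h1 : |u * p| ≤ |u| * (2 * (B : ℝ) ^ 2) := by
      rw [abs_mul]; exact mul_le_mul_of_nonneg_left hp (abs_nonneg _)
    have h2 : |v * q| ≤ |v| * (2 * (B : ℝ) ^ 2) := by
      rw [abs_mul]; exact mul_le_mul_of_nonneg_left hq (abs_nonneg _)
    have h3 : |w * r| ≤ |w| * (2 * (B : ℝ) ^ 2) := by
      rw [abs_mul]; exact mul_le_mul_of_nonneg_left hr (abs_nonneg _)
    have h4 : |t| ≤ |(D : ℝ) * t| := by
      rw [abs_mul]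
      nlinarith [abs_nonneg t]
    have h5 : |(D : ℝ) * t| ≤ |u * p| + |v * q| + |w * r| := by
      rw [ht]
      exact abs_add_three _ _ _
    have h6 := mul_lt_mul_of_pos_right hu' hb
    have h7 := mul_lt_mul_of_pos_right hv' hb
    have h8 := mul_lt_mul_of_pos_right hw' hb
    linarith
  have hDr : (D : ℝ) = A₁ * (B₂ * C₃ - C₂ * B₃) - B₁ * (A₂ * C₃ - C₂ * A₃) +
      C₁ * (A₂ * B₃ - B₂ * A₃) := by
    rw [hDdef]; push_cast; ring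
  refine ⟨?_, ?_, ?_⟩
  · refine key (p := (B₂ : ℝ) * C₃ - C₂ * B₃) (q := (C₁ : ℝ) * B₃ - B₁ * C₃)
      (r := (B₁ : ℝ) * C₂ - C₁ * B₂) (minor hB₂ hC₃ hC₂ hB₃) (minor hC₁ hB₃ hB₁ hC₃)
      (minor hB₁ hC₂ hC₁ hB₂) ?_
    rw [hDr, hu, hv, hw]; ring
  · refine key (p := (C₂ : ℝ) * A₃ - A₂ * C₃) (q := (A₁ : ℝ) * C₃ - C₁ * A₃)
      (r := (C₁ : ℝ) * A₂ - A₁ * C₂) (minor hC₂ hA₃ hA₂ hC₃) (minor hA₁ hC₃ hC₁ hA₃)
      (minor hC₁ hA₂ hA₁ hC₂) ?_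
    rw [hDr, hu, hv, hw]; ring
  · refine key (p := (A₂ : ℝ) * B₃ - B₂ * A₃) (q := (B₁ : ℝ) * A₃ - A₁ * B₃)
      (r := (A₁ : ℝ) * B₂ - B₁ * A₂) (minor hA₂ hB₃ hB₂ hA₃) (minor hB₁ hA₃ hA₁ hB₃)
      (minor hA₁ hB₂ hB₁ hA₂) ?_
    rw [hDr, hu, hv, hw]; ring

/-- the frequencies in terms of the differences with `e` -/
theorem th_eq {d : ℕ} (a b c e : Fin d → ℤ) (n₁ n₂ n₃ n₄ : ℕ) (i : Fin d) :
    th a b c e n₁ n₂ n₃ n₄ i = ((a i - e i : ℤ) : ℝ) * (Real.log n₁ - Real.log n₄) +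
      ((b i - e i : ℤ) : ℝ) * (Real.log n₂ - Real.log n₁) +
      ((c i - e i : ℤ) : ℝ) * (Real.log n₃ - Real.log n₂) := by
  unfold th
  push_cast
  ring

theorem ind (hS : StSep) : StInd := by
  intro N B hN hB I hI d a b c e hab i j k hdet Λ hΛ n₄ hn₄
  have hNr : (1 : ℝ) ≤ N := by exact_mod_cast hN
  have hBr : (1 : ℝ) ≤ B := by exact_mod_cast hB
  set σ : ℝ := 1 / (6 * (B : ℝ) ^ 2 * N) with hσ
  have hσ0 : 0 < σ := by positivity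
  have hK : 1 ≤ 18 * B ^ 3 * N ^ 2 := Nat.one_le_iff_ne_zero.2 (by positivity)
  have hKσ : ((18 * B ^ 3 * N ^ 2 : ℕ) : ℝ) * σ = 3 * B * N := by
    rw [hσ]
    push_cast
    field_simp
    ring
  have hfreq : ∀ n₁ ∈ I, ∀ n₂ ∈ I, ∀ n₃ ∈ I, ∀ l : Fin d,
      |th a b c e n₁ n₂ n₃ n₄ l| ≤ ((18 * B ^ 3 * N ^ 2 : ℕ) : ℝ) * σ := by
    intro n₁ h₁ n₂ h₂ n₃ h₃ l
    rw [hKσ, th_eq]
    obtain ⟨e1, e2, e3⟩ := hab l
    have f : ∀ {X : ℤ} {y : ℝ}, |X| ≤ B → |y| ≤ N → |(X : ℝ) * y| ≤ B * N := by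
      intro X y hX hy
      rw [abs_mul]
      have hX' : |(X : ℝ)| ≤ B := by exact_mod_cast hX
      exact mul_le_mul hX' hy (abs_nonneg _) (by positivity)
    have g1 := f e1 (log_bound (hI _ h₁) (hI _ hn₄))
    have g2 := f e2 (log_bound (hI _ h₂) (hI _ h₁))
    have g3 := f e3 (log_bound (hI _ h₃) (hI _ h₂))
    refine (abs_add_three _ _ _).trans ?_
    linarith
  have hsep := hS (ℕ × ℕ × ℕ) (I ×ˢ I ×ˢ I)
    (fun p => ![th a b c e p.1 p.2.1 p.2.2 n₄ i, th a b c e p.1 p.2.1 p.2.2 n₄ j,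
      th a b c e p.1 p.2.1 p.2.2 n₄ k]) Λ σ (18 * B ^ 3 * N ^ 2) hΛ hσ0 hK ?_ ?_
  · rw [Finset.sum_product] at hsep
    simp only [Finset.sum_product, Fin.prod_univ_three, Matrix.cons_val_zero,
      Matrix.cons_val_one, Matrix.cons_val_two, Matrix.head_cons, Matrix.tail_cons,
      Matrix.cons_val] at hsep
    refine hsep.trans (le_of_eq ?_)
    have h2 : 2 / (Λ * σ) = 12 * (B : ℝ) ^ 2 * N / Λ := by
      rw [hσ]
      field_simp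
      ring
    rw [h2]
    push_cast
    rfl
  · rintro ⟨n₁, n₂, n₃⟩ hp ⟨m₁, m₂, m₃⟩ hq hne
    simp only [Finset.mem_product] at hp hq
    obtain ⟨h₁, h₂, h₃⟩ := hp
    obtain ⟨h₁', h₂', h₃'⟩ := hq
    by_contra hcon
    push Not at hcon
    have c0 := hcon 0
    have c1 := hcon 1
    have c2 := hcon 2
    simp only [Matrix.cons_val_zero, Matrix.cons_val_one, Matrix.cons_val_two,
      Matrix.head_cons, Matrix.tail_cons, Matrix.cons_val] at c0 c1 c2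
    have hcr := cramer (hab i).1 (hab j).1 (hab k).1 (hab i).2.1 (hab j).2.1 (hab k).2.1
      (hab i).2.2 (hab j).2.2 (hab k).2.2 hdet
      (x := Real.log n₁ - Real.log m₁)
      (y := (Real.log n₂ - Real.log m₂) - (Real.log n₁ - Real.log m₁))
      (z := (Real.log n₃ - Real.log m₃) - (Real.log n₂ - Real.log m₂))
      (by rw [th_eq, th_eq]; ring) (by rw [th_eq, th_eq]; ring) (by rw [th_eq, th_eq]; ring)
      c0 c1 c2 hB
    have hs : 6 * (B : ℝ) ^ 2 * σ = 1 / N := by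
      rw [hσ]
      field_simp
    rw [hs] at hcr
    obtain ⟨x1, x2, x3⟩ := hcr
    by_cases e1 : n₁ = m₁
    · subst e1
      by_cases e2 : n₂ = m₂
      · subst e2
        have e3 : n₃ ≠ m₃ := by
          rintro rfl
          exact hne rfl
        have := log_sep (hI _ h₃) (hI _ h₃') e3
        rw [sub_self, sub_zero] at x3
        exact absurd this (not_le.2 x3)
      · have := log_sep (hI _ h₂) (hI _ h₂') e2
        rw [sub_self, sub_zero] at x2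
        exact absurd this (not_le.2 x2)
    · exact absurd (log_sep (hI _ h₁) (hI _ h₁') e1) (not_le.2 x1)
  · rintro ⟨n₁, n₂, n₃⟩ hp l
    simp only [Finset.mem_product] at hp
    obtain ⟨h₁, h₂, h₃⟩ := hp
    fin_cases l
    · exact hfreq n₁ h₁ n₂ h₂ n₃ h₃ i
    · exact hfreq n₁ h₁ n₂ h₂ n₃ h₃ j
    · exact hfreq n₁ h₁ n₂ h₂ n₃ h₃ k

end Pool.Agent.K7.H21.ML
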