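import Pool.Agent.K7.H21.ML_IND
import Pool.Agent.K7.H49.ML.Stm2

set_option autoImplicit false

/-!
# Job NSUM of project ML: the sum over the integers
-/

open Finset

namespace Pool.Agent.K7.H21.ML

open Pool.Agent.K7.H49.ML

theorem g_nonneg (Λ θ : ℝ) : 0 ≤ g Λ θ := by
  unfold g
  exact inv_nonneg.2 (le_trans zero_le_one (le_max_left _ _))

theorem g_le_one (Λ θ : ℝ) : g Λ θ ≤ 1 := by
  unfold g
  exact inv_le_one_of_one_le₀ (le_max_left _ _)

/-- summation by parts along the cycle -/
theorem freq_eq {d m : ℕ} (a : Fin (m + 1) → Fin d → ℤ) (x : Fin (m + 1) → ℝ) (i : Fin d) :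
    ∑ j, (a j i : ℝ) * (x (j + 1) - x j) = ∑ j, ((a (j - 1) i : ℝ) - a j i) * x j := by
  have h1 : ∑ j, (a j i : ℝ) * x (j + 1) = ∑ j, (a (j - 1) i : ℝ) * x j := by
    rw [← Equiv.sum_comp (Equiv.addRight (1 : Fin (m + 1)))
      (fun j => (a (j - 1) i : ℝ) * x j)]
    refine Finset.sum_congr rfl fun j _ => ?_
    simp [Equiv.coe_addRight]
  simp only [mul_sub, sub_mul, Finset.sum_sub_distrib]
  rw [h1]

theorem pred_succ {m : ℕ} (j : Fin m) : j.succ - 1 = j.castSucc := by
  rw [← Fin.coeSucc_eq_succ, add_sub_cancel_right]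

theorem freq_bound {d m N B : ℕ} {a : Fin (m + 1) → Fin d → ℤ}
    (ha : ∀ j j' i, |a j i - a j' i| ≤ B) {n : Fin (m + 1) → ℕ} (hn : ∀ j, 1 ≤ n j ∧ n j ≤ N)
    (i : Fin d) : |freq a n i| ≤ ((m : ℝ) + 1) * B * N := by
  unfold freq
  rw [freq_eq a (fun j => Real.log (n j)) i]
  refine (Finset.abs_sum_le_sum_abs _ _).trans ?_
  have h : ∀ j ∈ (Finset.univ : Finset (Fin (m + 1))),
      |((a (j - 1) i : ℝ) - a j i) * Real.log (n j)| ≤ (B : ℝ) * N := by
    intro j _
    rw [abs_mul]
    have h1 : |((a (j - 1) i : ℝ) - a j i)| ≤ B := by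
      have := ha (j - 1) j i
      exact_mod_cast this
    have h2 : |Real.log (n j)| ≤ N := by
      have h3 : (1 : ℝ) ≤ n j := by exact_mod_cast (hn j).1
      have h4 : (n j : ℝ) ≤ N := by exact_mod_cast (hn j).2
      rw [abs_of_nonneg (Real.log_nonneg h3)]
      have := Real.log_le_sub_one_of_pos (x := (n j : ℝ)) (by linarith)
      linarith
    exact mul_le_mul h1 h2 (abs_nonneg _) (by positivity)
  refine (Finset.sum_le_sum h).trans (le_of_eq ?_)
  rw [Finset.sum_const, Finset.card_univ, Fintype.card_fin, nsmul_eq_mul]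
  push_cast
  ring

theorem prod_le_sub {d r : ℕ} (f : Fin d → ℝ) (h0 : ∀ i, 0 ≤ f i) (h1 : ∀ i, f i ≤ 1)
    (R : Fin r → Fin d) (hR : Function.Injective R) : ∏ i, f i ≤ ∏ l, f (R l) := by
  classical
  rw [← Finset.prod_mul_prod_compl (Finset.univ.image R) f,
    Finset.prod_image (fun x _ y _ h => hR h)]
  have h2 : ∏ i ∈ (Finset.univ.image R)ᶜ, f i ≤ 1 :=
    Finset.prod_le_one (fun i _ => h0 i) (fun i _ => h1 i)
  exact mul_le_of_le_one_right (Finset.prod_nonneg fun l _ => h0 _) h2

theorem nsum (hS : StSepK) (hM : StMinor) (hA : StAdj) : StNSum := by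
  classical
  intro N B hN hB I hI d m a ha Λ hΛ
  have hNr : (1 : ℝ) ≤ N := by exact_mod_cast hN
  have hBr : (1 : ℝ) ≤ B := by exact_mod_cast hB
  obtain ⟨r, hr⟩ : ∃ r, r = rk a := ⟨_, rfl⟩
  obtain ⟨Cc, R, hCc, hR, hdet⟩ := hM d m (dif a) r hr
  rw [← hr]
  have hrm : r ≤ m := by
    have := Fintype.card_le_of_injective Cc hCc
    simpa using this
  -- the integral matrix
  set W : Matrix (Fin r) (Fin r) ℤ :=
    Matrix.of fun l c => a (Cc c).succ (R l) - a (Cc c).castSucc (R l) with hW
  have hWdet : W.det ≠ 0 := by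
    intro h0
    apply hdet
    have h1 : (Matrix.of fun l c => dif a (Cc c) (R l)) = W.map (Int.cast : ℤ → ℚ) := by
      ext l c
      simp [hW, dif]
    rw [h1]
    have h2 : (W.map (Int.cast : ℤ → ℚ)).det = ((W.det : ℤ) : ℚ) := by
      have := (Int.castRingHom ℚ).map_det W
      simpa [RingHom.mapMatrix_apply] using this.symm
    rw [h2, h0]
    simp
  have hWB : ∀ l c, |W l c| ≤ B := fun l c => ha _ _ _
  set e : Fin r → Fin (m + 1) := fun c => (Cc c).succ with he
  have heinj : Function.Injective e := fun c c' h => hCc (Fin.succ_injective _ h)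
  set T : Finset (Fin (m + 1)) := Finset.univ.image e with hT
  have hTcard : T.card = r := by
    rw [hT, Finset.card_image_of_injective _ heinj, Finset.card_univ, Fintype.card_fin]
  set F : ℝ := ((m + 1).factorial : ℝ) * (B : ℝ) ^ (m + 1) * N with hF
  have hF0 : 0 < F := by positivity
  set σ : ℝ := 1 / F with hσ
  have hσ0 : 0 < σ := by positivity
  set K : ℕ := (m + 1) * (m + 1).factorial * B ^ (m + 2) * N ^ 2 with hK
  have hK1 : 1 ≤ K := Nat.one_le_iff_ne_zero.2 (by
    rw [hK]
    have := Nat.factorial_pos (m + 1)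
    positivity)
  have hKσ : (K : ℝ) * σ = ((m : ℝ) + 1) * B * N := by
    rw [hσ, hF, hK]
    push_cast
    have h1 : ((m + 1).factorial : ℝ) ≠ 0 := by positivity
    field_simp
    ring
  -- the classes
  have hnI : ∀ (n : Fin (m + 1) → I) (j : Fin (m + 1)), 1 ≤ (n j : ℕ) ∧ (n j : ℕ) ≤ N :=
    fun n j => hI _ (n j).2
  have hclass : ∀ u : {j // j ∉ T} → I,
      ∑ n ∈ (Finset.univ : Finset (Fin (m + 1) → I)).filter
        (fun n => (fun j : {j // j ∉ T} => n j.1) = u),
        ∏ l, g Λ (freq a (fun j => (n j : ℕ)) (R l)) ≤ Qc m N B Λ ^ r := by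
    intro u
    have hsep := hS (Fin (m + 1) → I) ((Finset.univ : Finset (Fin (m + 1) → I)).filter
        (fun n => (fun j : {j // j ∉ T} => n j.1) = u)) r
        (fun n l => freq a (fun j => (n j : ℕ)) (R l)) Λ σ K hΛ hσ0 hK1 ?_ ?_
    · refine hsep.trans (le_of_eq ?_)
      unfold Qc
      have h2 : 2 / (Λ * σ) = 2 * F / Λ := by
        rw [hσ]
        field_simp
      rw [h2, hK, hF]
      push_cast
      rfl
    · intro n hn n' hn' hne
      rw [Finset.mem_filter] at hn hn'
      by_contra hcon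
      push Not at hcon
      have hagree : ∀ j, j ∉ T → n j = n' j := by
        intro j hj
        exact congrFun (hn.2.trans hn'.2.symm) ⟨j, hj⟩
      obtain ⟨k, hk⟩ : ∃ k, n k ≠ n' k := by
        by_contra h
        push Not at h
        exact hne (funext h)
      have hkT : k ∈ T := by
        by_contra h
        exact hk (hagree k h)
      obtain ⟨c₀, -, hc₀⟩ := Finset.mem_image.1 hkT
      set y : Fin r → ℝ := fun c => Real.log (n (e c) : ℕ) - Real.log (n' (e c) : ℕ) with hy
      have hz : ∀ l, freq a (fun j => (n j : ℕ)) (R l) - freq a (fun j => (n' j : ℕ)) (R l) =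
          -∑ c, (W l c : ℝ) * y c := by
        intro l
        unfold freq
        rw [freq_eq a (fun j => Real.log (n j : ℕ)) (R l),
          freq_eq a (fun j => Real.log (n' j : ℕ)) (R l), ← Finset.sum_sub_distrib,
          ← Finset.sum_neg_distrib]
        symm
        refine Fintype.sum_of_injective e heinj _ _ ?_ ?_
        · intro j hj
          have hjT : j ∉ T := by
            intro h
            obtain ⟨c, -, hc⟩ := Finset.mem_image.1 h
            exact hj ⟨c, hc⟩
          rw [hagree j hjT, sub_self]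
        · intro c
          have h3 : e c - 1 = (Cc c).castSucc := pred_succ _
          rw [h3, hW, hy]
          simp only [Matrix.of_apply]
          push_cast
          ring
      have hlt : ∀ l, |∑ c, (W l c : ℝ) * y c| < σ := by
        intro l
        have h3 := hcon l
        rw [hz l, abs_neg] at h3
        exact h3
      have h4 := hA r W B hB hWdet hWB y σ hlt c₀
      have h5 : 1 / (N : ℝ) ≤ |y c₀| := by
        refine log_sep (hnI n _) (hnI n' _) ?_
        rw [hc₀]
        intro h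
        exact hk (Subtype.ext h)
      have h6 : (r.factorial : ℝ) * (B : ℝ) ^ r * σ ≤ 1 / N := by
        have h7 : (r.factorial : ℝ) ≤ (m + 1).factorial := by
          exact_mod_cast Nat.factorial_le (by omega : r ≤ m + 1)
        have h8 : (B : ℝ) ^ r ≤ (B : ℝ) ^ (m + 1) := pow_le_pow_right₀ hBr (by omega)
        have h9 : (r.factorial : ℝ) * (B : ℝ) ^ r ≤ ((m + 1).factorial : ℝ) * (B : ℝ) ^ (m + 1) :=
          mul_le_mul h7 h8 (by positivity) (by positivity)
        rw [hσ, hF, mul_one_div, div_le_div_iff₀ hF0 (by linarith), one_mul]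
        exact mul_le_mul_of_nonneg_right h9 (by linarith)
      exact absurd (lt_of_lt_of_le h4 h6) (not_lt.2 h5)
    · intro n _ l
      rw [hKσ]
      exact freq_bound ha (hnI n) (R l)
  calc ∑ n : Fin (m + 1) → I, ∏ i, g Λ (freq a (fun j => (n j : ℕ)) i)
      ≤ ∑ n : Fin (m + 1) → I, ∏ l, g Λ (freq a (fun j => (n j : ℕ)) (R l)) :=
        Finset.sum_le_sum fun n _ =>
          prod_le_sub _ (fun i => g_nonneg _ _) (fun i => g_le_one _ _) R hR
    _ = ∑ u : {j // j ∉ T} → I, ∑ n ∈ (Finset.univ : Finset (Fin (m + 1) → I)).filter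
        (fun n => (fun j : {j // j ∉ T} => n j.1) = u),
        ∏ l, g Λ (freq a (fun j => (n j : ℕ)) (R l)) := by
        rw [Finset.sum_fiberwise]
    _ ≤ ∑ u : {j // j ∉ T} → I, Qc m N B Λ ^ r := Finset.sum_le_sum fun u _ => hclass u
    _ = (I.card : ℝ) ^ (m + 1 - r) * Qc m N B Λ ^ r := by
        rw [Finset.sum_const, Finset.card_univ, Fintype.card_fun, nsmul_eq_mul]
        have h1 : Fintype.card {j // j ∉ T} = m + 1 - r := by
          rw [Fintype.card_of_subtype Tᶜ (by simp), Finset.card_compl, Fintype.card_fin, hTcard]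
        rw [h1, Fintype.card_coe]
        push_cast
        rfl

end Pool.Agent.K7.H21.ML
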