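import Pool.Agent.K7.H21.ML_NSUM
import Pool.Agent.K7.H49.ML.Stm3

set_option autoImplicit false

/-!
# Job NSUMH of project ML: the sum over the integers for the integral version
-/

open Finset

namespace Pool.Agent.K7.H21.ML

open Pool.Agent.K7.H49.ML

theorem h_nonneg (L : ℕ) (θ : ℝ) : 0 ≤ h L θ := by
  unfold h
  positivity

theorem h_le_one {L : ℕ} (hL : 1 ≤ L) (θ : ℝ) : h L θ ≤ 1 := by
  have hL0 : (0 : ℝ) < L := by exact_mod_cast hL
  unfold h
  rw [div_le_one hL0]
  refine (norm_sum_le _ _).trans ?_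
  have h1 : ∀ x ∈ Finset.Ioc L (2 * L),
      ‖Complex.exp (((θ * (x : ℝ) : ℝ) : ℂ) * Complex.I)‖ ≤ 1 := by
    intro x _
    rw [Complex.norm_exp_ofReal_mul_I]
  refine (Finset.sum_le_card_nsmul _ _ 1 h1).trans ?_
  rw [Nat.card_Ioc, nsmul_eq_mul, mul_one]
  have : 2 * L - L = L := by omega
  rw [this]

theorem freq_bound_log {d m N B : ℕ} (hN : 1 ≤ N) {a : Fin (m + 1) → Fin d → ℤ}
    (ha : ∀ j j' i, |a j i - a j' i| ≤ B) {n : Fin (m + 1) → ℕ} (hn : ∀ j, 1 ≤ n j ∧ n j ≤ N)
    (i : Fin d) : |freq a n i| ≤ 2 * Real.pi * Vc m N B := by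
  have h0 : |freq a n i| ≤ Vc m N B := by
    unfold freq
    rw [freq_eq a (fun j => Real.log (n j)) i]
    refine (Finset.abs_sum_le_sum_abs _ _).trans ?_
    have hlog : Real.log N ≤ (Nat.log 2 N : ℝ) + 1 := by
      have h1 : N < 2 ^ (Nat.log 2 N + 1) := Nat.lt_pow_succ_log_self (by norm_num) N
      have h2 : (N : ℝ) ≤ 2 ^ (Nat.log 2 N + 1) := by exact_mod_cast h1.le
      have hN0 : (0 : ℝ) < N := by exact_mod_cast hN
      have h3 := Real.log_le_log hN0 h2
      rw [Real.log_pow] at h3
      have h4 : Real.log 2 ≤ 1 := by have := Real.log_two_lt_d9; linarith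
      have h5 : ((Nat.log 2 N + 1 : ℕ) : ℝ) * Real.log 2 ≤ ((Nat.log 2 N + 1 : ℕ) : ℝ) * 1 :=
        mul_le_mul_of_nonneg_left h4 (by positivity)
      push_cast at h3 h5
      linarith
    have h : ∀ j ∈ (Finset.univ : Finset (Fin (m + 1))),
        |((a (j - 1) i : ℝ) - a j i) * Real.log (n j)| ≤ (B : ℝ) * ((Nat.log 2 N : ℝ) + 1) := by
      intro j _
      rw [abs_mul]
      have h1 : |((a (j - 1) i : ℝ) - a j i)| ≤ B := by
        have := ha (j - 1) j i
        exact_mod_cast this
      have h2 : |Real.log (n j)| ≤ (Nat.log 2 N : ℝ) + 1 := by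
        have h3 : (1 : ℝ) ≤ n j := by exact_mod_cast (hn j).1
        have h4 : (n j : ℝ) ≤ N := by exact_mod_cast (hn j).2
        rw [abs_of_nonneg (Real.log_nonneg h3)]
        exact (Real.log_le_log (by linarith) h4).trans hlog
      exact mul_le_mul h1 h2 (abs_nonneg _) (by positivity)
    refine (Finset.sum_le_sum h).trans (le_of_eq ?_)
    rw [Finset.sum_const, Finset.card_univ, Fintype.card_fin, nsmul_eq_mul]
    unfold Vc
    push_cast
    ring
  have hpi := Real.pi_gt_three
  have hV : (0 : ℝ) ≤ Vc m N B := Nat.cast_nonneg _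
  nlinarith

theorem nsumh (hS : StSepH) (hM : StMinor) (hA : StAdj) : StNSumH := by
  classical
  intro N B hN hB I hI d m a ha L hL
  have hNr : (1 : ℝ) ≤ N := by exact_mod_cast hN
  have hBr : (1 : ℝ) ≤ B := by exact_mod_cast hB
  obtain ⟨r, hr⟩ : ∃ r, r = rk a := ⟨_, rfl⟩
  obtain ⟨Cc, R, hCc, hR, hdet⟩ := hM d m (dif a) r hr
  rw [← hr]
  have hrm : r ≤ m := by
    have := Fintype.card_le_of_injective Cc hCc
    simpa using this
  -- the integral matrix
  set W : Matrix (Fin r) (Fin r) ℤ :=
    Matrix.of fun l c => a (Cc c).succ (R l) - a (Cc c).castSucc (R l) with hW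
  have hWdet : W.det ≠ 0 := by
    intro h0
    apply hdet
    have h1 : (Matrix.of fun l c => dif a (Cc c) (R l)) = W.map (Int.cast : ℤ → ℚ) := by
      ext l c
      simp [hW, dif]
    rw [h1]
    have h2 : (W.map (Int.cast : ℤ → ℚ)).det = ((W.det : ℤ) : ℚ) := by
      have := (Int.castRingHom ℚ).map_det W
      simpa [RingHom.mapMatrix_apply] using this.symm
    rw [h2, h0]
    simp
  have hWB : ∀ l c, |W l c| ≤ B := fun l c => ha _ _ _
  set e : Fin r → Fin (m + 1) := fun c => (Cc c).succ with he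
  have heinj : Function.Injective e := fun c c' h => hCc (Fin.succ_injective _ h)
  set T : Finset (Fin (m + 1)) := Finset.univ.image e with hT
  have hTcard : T.card = r := by
    rw [hT, Finset.card_image_of_injective _ heinj, Finset.card_univ, Fintype.card_fin]
  set F : ℝ := ((m + 1).factorial : ℝ) * (B : ℝ) ^ (m + 1) * N with hF
  have hF0 : 0 < F := by positivity
  set σ : ℝ := 1 / F with hσ
  have hσ0 : 0 < σ := by positivity
  have hV1 : 0 < Vc m N B := by
    unfold Vc
    positivity
  have hL0 : (0 : ℝ) < L := by exact_mod_cast hL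
  set K : ℕ := 13 * Vc m N B * ((m + 1).factorial * B ^ (m + 1) * N) with hK
  have hK1 : 1 ≤ K := Nat.one_le_iff_ne_zero.2 (by
    rw [hK]
    have := Nat.factorial_pos (m + 1)
    positivity)
  have hKF : (K : ℝ) = 13 * Vc m N B * F := by
    rw [hF, hK]
    push_cast
    ring
  have hKσ : 4 * Real.pi * (Vc m N B : ℝ) ≤ (K : ℝ) * σ := by
    rw [hσ, hKF, mul_one_div, mul_div_assoc, div_self hF0.ne', mul_one]
    have h1 := Real.pi_lt_d2
    have h2 : (0 : ℝ) < Vc m N B := by exact_mod_cast hV1
    nlinarith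
  -- the classes
  have hnI : ∀ (n : Fin (m + 1) → I) (j : Fin (m + 1)), 1 ≤ (n j : ℕ) ∧ (n j : ℕ) ≤ N :=
    fun n j => hI _ (n j).2
  have hclass : ∀ u : {j // j ∉ T} → I,
      ∑ n ∈ (Finset.univ : Finset (Fin (m + 1) → I)).filter
        (fun n => (fun j : {j // j ∉ T} => n j.1) = u),
        ∏ l, h L (freq a (fun j => (n j : ℕ)) (R l)) ≤ Qh m N B L ^ r := by
    intro u
    have hsep := hS (Fin (m + 1) → I) ((Finset.univ : Finset (Fin (m + 1) → I)).filter
        (fun n => (fun j : {j // j ∉ T} => n j.1) = u)) r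
        (fun n l => freq a (fun j => (n j : ℕ)) (R l)) L (Vc m N B) σ K hL hσ0 hK1 hKσ ?_ ?_
    · refine hsep.trans (le_of_eq ?_)
      unfold Qh
      have h2 : Real.pi / (L * σ) = Real.pi * F / L := by
        rw [hσ]
        field_simp
      rw [h2, hKF]
    · intro n hn n' hn' hne
      rw [Finset.mem_filter] at hn hn'
      by_contra hcon
      push Not at hcon
      have hagree : ∀ j, j ∉ T → n j = n' j := by
        intro j hj
        exact congrFun (hn.2.trans hn'.2.symm) ⟨j, hj⟩
      obtain ⟨k, hk⟩ : ∃ k, n k ≠ n' k := by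
        by_contra h
        push Not at h
        exact hne (funext h)
      have hkT : k ∈ T := by
        by_contra h
        exact hk (hagree k h)
      obtain ⟨c₀, -, hc₀⟩ := Finset.mem_image.1 hkT
      set y : Fin r → ℝ := fun c => Real.log (n (e c) : ℕ) - Real.log (n' (e c) : ℕ) with hy
      have hz : ∀ l, freq a (fun j => (n j : ℕ)) (R l) - freq a (fun j => (n' j : ℕ)) (R l) =
          -∑ c, (W l c : ℝ) * y c := by
        intro l
        unfold freq
        rw [freq_eq a (fun j => Real.log (n j : ℕ)) (R l),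
          freq_eq a (fun j => Real.log (n' j : ℕ)) (R l), ← Finset.sum_sub_distrib,
          ← Finset.sum_neg_distrib]
        symm
        refine Fintype.sum_of_injective e heinj _ _ ?_ ?_
        · intro j hj
          have hjT : j ∉ T := by
            intro h
            obtain ⟨c, -, hc⟩ := Finset.mem_image.1 h
            exact hj ⟨c, hc⟩
          rw [hagree j hjT, sub_self]
        · intro c
          have h3 : e c - 1 = (Cc c).castSucc := pred_succ _
          rw [h3, hW, hy]
          simp only [Matrix.of_apply]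
          push_cast
          ring
      have hlt : ∀ l, |∑ c, (W l c : ℝ) * y c| < σ := by
        intro l
        have h3 := hcon l
        rw [hz l, abs_neg] at h3
        exact h3
      have h4 := hA r W B hB hWdet hWB y σ hlt c₀
      have h5 : 1 / (N : ℝ) ≤ |y c₀| := by
        refine log_sep (hnI n _) (hnI n' _) ?_
        rw [hc₀]
        intro h
        exact hk (Subtype.ext h)
      have h6 : (r.factorial : ℝ) * (B : ℝ) ^ r * σ ≤ 1 / N := by
        have h7 : (r.factorial : ℝ) ≤ (m + 1).factorial := by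
          exact_mod_cast Nat.factorial_le (by omega : r ≤ m + 1)
        have h8 : (B : ℝ) ^ r ≤ (B : ℝ) ^ (m + 1) := pow_le_pow_right₀ hBr (by omega)
        have h9 : (r.factorial : ℝ) * (B : ℝ) ^ r ≤ ((m + 1).factorial : ℝ) * (B : ℝ) ^ (m + 1) :=
          mul_le_mul h7 h8 (by positivity) (by positivity)
        rw [hσ, hF, mul_one_div, div_le_div_iff₀ hF0 (by linarith), one_mul]
        exact mul_le_mul_of_nonneg_right h9 (by linarith)
      exact absurd (lt_of_lt_of_le h4 h6) (not_lt.2 h5)
    · intro n _ l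
      exact freq_bound_log hN ha (hnI n) (R l)
  calc ∑ n : Fin (m + 1) → I, ∏ i, h L (freq a (fun j => (n j : ℕ)) i)
      ≤ ∑ n : Fin (m + 1) → I, ∏ l, h L (freq a (fun j => (n j : ℕ)) (R l)) :=
        Finset.sum_le_sum fun n _ =>
          prod_le_sub _ (fun i => h_nonneg _ _) (fun i => h_le_one hL _) R hR
    _ = ∑ u : {j // j ∉ T} → I, ∑ n ∈ (Finset.univ : Finset (Fin (m + 1) → I)).filter
        (fun n => (fun j : {j // j ∉ T} => n j.1) = u),
        ∏ l, h L (freq a (fun j => (n j : ℕ)) (R l)) := by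
        rw [Finset.sum_fiberwise]
    _ ≤ ∑ u : {j // j ∉ T} → I, Qh m N B L ^ r := Finset.sum_le_sum fun u _ => hclass u
    _ = (I.card : ℝ) ^ (m + 1 - r) * Qh m N B L ^ r := by
        rw [Finset.sum_const, Finset.card_univ, Fintype.card_fun, nsmul_eq_mul]
        have h1 : Fintype.card {j // j ∉ T} = m + 1 - r := by
          rw [Fintype.card_of_subtype Tᶜ (by simp), Finset.card_compl, Fintype.card_fin, hTcard]
        rw [h1, Fintype.card_coe]
        push_cast
        rfl

end Pool.Agent.K7.H21.ML
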