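import Pool.Agent.K7.H48.PC.Stm

/-!
# Polynomial curves approximating curves of bounded length: the conclusion (helper21)

`stMain : StConv → StGeo → StMain`.
-/

set_option autoImplicit false

namespace Pool.Agent.K7.H21.PCFINAL

open Set Pool.Agent.K7.H48.PC

/-- the approximation of a coordinate -/
theorem approx (hc : StConv) (n : ℕ) (f : ℝ → ℝ) (h1 : ∀ x, f (-x) = f x)
    (h2 : ∀ x, f (x + 2 * Real.pi) = f x) (h3 : ∀ x y, |f x - f y| ≤ (1 / Real.pi) * |x - y|) :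
    ∃ c : ℕ → ℝ, ∀ x, |f x - ∑ k ∈ Finset.range (n + 1), c k * Real.cos ((k:ℝ) * x)|
      ≤ 1 / (2 * ((n:ℝ) + 1)) := by
  have hpi := Real.pi_pos
  obtain ⟨M, e1⟩ : ∃ M : NNReal, (M : ℝ) = 1 / Real.pi :=
    ⟨Real.toNNReal (1 / Real.pi), Real.coe_toNNReal _ (by positivity)⟩
  obtain ⟨c, hcc⟩ := hc (n + 1) (by omega) M f h1 h2
    (LipschitzWith.of_dist_le_mul fun x y => by
      rw [Real.dist_eq, Real.dist_eq, e1]; exact h3 x y)
  refine ⟨c, fun x => (hcc x).trans (le_of_eq ?_)⟩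
  rw [e1]
  push_cast
  field_simp

/-- images of the same set under maps at distance at most `r` -/
theorem haus {S : Set ℝ} {F G : ℝ → ℝ × ℝ} {r : ℝ}
    (h : ∀ x ∈ S, |(F x).1 - (G x).1| ≤ r ∧ |(F x).2 - (G x).2| ≤ r) :
    Metric.hausdorffEDist (F '' S) (G '' S) ≤ ENNReal.ofReal r := by
  have h1 : ∀ x ∈ S, edist (F x) (G x) ≤ ENNReal.ofReal r := by
    intro x hx
    obtain ⟨h2, h3⟩ := h x hx
    rw [Prod.edist_eq, edist_dist, edist_dist, Real.dist_eq, Real.dist_eq]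
    exact max_le (ENNReal.ofReal_le_ofReal h2) (ENNReal.ofReal_le_ofReal h3)
  apply Metric.hausdorffEDist_le_of_mem_edist
  · rintro _ ⟨x, hx, rfl⟩
    exact ⟨G x, ⟨x, hx, rfl⟩, h1 x hx⟩
  · rintro _ ⟨x, hx, rfl⟩
    refine ⟨F x, ⟨x, hx, rfl⟩, ?_⟩
    rw [edist_comm]
    exact h1 x hx

/-- the algebraic polynomial of a cosine polynomial -/
noncomputable def poly (n : ℕ) (c : ℕ → ℝ) : Polynomial ℝ :=
  ∑ k ∈ Finset.range (n + 1), Polynomial.C (c k) *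
    (Polynomial.Chebyshev.T ℝ (k : ℤ)).comp (1 - Polynomial.C 2 * Polynomial.X)

theorem poly_degree (n : ℕ) (c : ℕ → ℝ) : (poly n c).degree ≤ (n : WithBot ℕ) := by
  apply Polynomial.degree_le_of_natDegree_le
  apply Polynomial.natDegree_sum_le_of_forall_le
  intro k hk
  have hk1 : k ≤ n := by have := Finset.mem_range.1 hk; omega
  refine (Polynomial.natDegree_C_mul_le _ _).trans ?_
  refine (Polynomial.natDegree_comp_le).trans ?_
  rw [Polynomial.Chebyshev.natDegree_T]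
  have h1 : (1 - Polynomial.C (2:ℝ) * Polynomial.X).natDegree ≤ 1 := by
    refine (Polynomial.natDegree_sub_le _ _).trans ?_
    refine max_le (by simp) ?_
    exact (Polynomial.natDegree_C_mul_le _ _).trans Polynomial.natDegree_X_le
  calc (k : ℤ).natAbs * (1 - Polynomial.C (2:ℝ) * Polynomial.X).natDegree ≤ k * 1 := by
        rw [Int.natAbs_natCast]; exact Nat.mul_le_mul_left _ h1
    _ ≤ n := by omega

theorem poly_eval (n : ℕ) (c : ℕ → ℝ) (θ : ℝ) : (poly n c).eval ((1 - Real.cos θ) / 2) =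
    ∑ k ∈ Finset.range (n + 1), c k * Real.cos ((k:ℝ) * θ) := by
  unfold poly
  rw [Polynomial.eval_finsetSum]
  refine Finset.sum_congr rfl fun k _ => ?_
  rw [Polynomial.eval_mul, Polynomial.eval_C, Polynomial.eval_comp]
  have e1 : Polynomial.eval ((1 - Real.cos θ) / 2) (1 - Polynomial.C (2:ℝ) * Polynomial.X) =
      Real.cos θ := by
    simp
    ring
  rw [e1, Polynomial.Chebyshev.T_real_cos]
  push_cast
  rfl

theorem image_unit (u : ℝ → ℝ × ℝ) :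
    u '' Icc 0 1 = (fun θ : ℝ => u ((1 - Real.cos θ) / 2)) '' Icc 0 Real.pi := by
  apply Subset.antisymm
  · rintro _ ⟨t, ⟨h0, h1⟩, rfl⟩
    refine ⟨Real.arccos (1 - 2 * t), ⟨Real.arccos_nonneg _, Real.arccos_le_pi _⟩, ?_⟩
    show u ((1 - Real.cos (Real.arccos (1 - 2 * t))) / 2) = u t
    rw [Real.cos_arccos (by linarith) (by linarith)]
    congr 1
    ring
  · rintro _ ⟨θ, _, rfl⟩
    refine ⟨(1 - Real.cos θ) / 2, ⟨?_, ?_⟩, rfl⟩
    · have := Real.cos_le_one θ; linarith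
    · have := Real.neg_one_le_cos θ; linarith

theorem cos_refl (k : ℕ) (t : ℝ) : Real.cos ((k:ℝ) * (2 * Real.pi - t)) = Real.cos ((k:ℝ) * t) := by
  rw [show (k:ℝ) * (2 * Real.pi - t) = (k:ℝ) * (2 * Real.pi) - (k:ℝ) * t by ring]
  exact Real.cos_nat_mul_two_pi_sub _ _

theorem image_circle (n : ℕ) (c d : ℕ → ℝ) :
    (fun t : ℝ => ((trigPoly n c 0 t, trigPoly n d 0 t) : ℝ × ℝ)) '' Icc 0 (2 * Real.pi) =
      (fun θ : ℝ => ((∑ k ∈ Finset.range (n + 1), c k * Real.cos ((k:ℝ) * θ),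
        ∑ k ∈ Finset.range (n + 1), d k * Real.cos ((k:ℝ) * θ)) : ℝ × ℝ)) '' Icc 0 Real.pi := by
  have hpi := Real.pi_pos
  have e1 : ∀ (c : ℕ → ℝ) (t : ℝ), trigPoly n c 0 t =
      ∑ k ∈ Finset.range (n + 1), c k * Real.cos ((k:ℝ) * t) := by
    intro c t
    unfold trigPoly
    refine Finset.sum_congr rfl fun k _ => ?_
    simp
  simp only [e1]
  apply Subset.antisymm
  · rintro _ ⟨t, ⟨h0, h1⟩, rfl⟩
    rcases le_total t Real.pi with h | h
    · exact ⟨t, ⟨h0, h⟩, rfl⟩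
    · refine ⟨2 * Real.pi - t, ⟨by linarith, by linarith⟩, ?_⟩
      simp only [cos_refl]
  · rintro _ ⟨t, ⟨h0, h1⟩, rfl⟩
    exact ⟨t, ⟨h0, by linarith⟩, rfl⟩

/-- the approximation of a curve -/
theorem curve (hc : StConv) (hg : StGeo) (n : ℕ) {A : Set (ℝ × ℝ)} (hA : A ∈ Gamma1) :
    ∃ c d : ℕ → ℝ, Metric.hausdorffEDist A
      ((fun θ : ℝ => ((∑ k ∈ Finset.range (n + 1), c k * Real.cos ((k:ℝ) * θ),
        ∑ k ∈ Finset.range (n + 1), d k * Real.cos ((k:ℝ) * θ)) : ℝ × ℝ)) '' Icc 0 Real.pi) ≤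
      ENNReal.ofReal (1 / (2 * ((n:ℝ) + 1))) := by
  obtain ⟨φ, hφ, hv, rfl⟩ := hA
  obtain ⟨f, g, f1, f2, f3, g1, g2, g3, e⟩ := hg φ hφ hv
  obtain ⟨c, hcc⟩ := approx hc n f f1 f2 f3
  obtain ⟨d, hd⟩ := approx hc n g g1 g2 g3
  refine ⟨c, d, ?_⟩
  rw [← e]
  exact haus fun x _ => ⟨hcc x, hd x⟩

theorem lim_bound {u : ℕ → ENNReal} (h : ∀ n : ℕ, u n ≤ ENNReal.ofReal (1 / (2 * ((n:ℝ) + 1)))) :
    Filter.limsup (fun n : ℕ => (n : ENNReal) * u n) Filter.atTop ≤ ENNReal.ofReal (1 / 2) := by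
  apply Filter.limsup_le_of_le
  · isBoundedDefault
  refine Filter.Eventually.of_forall fun n => ?_
  refine (mul_le_mul_right (h n) _).trans ?_
  rw [← ENNReal.ofReal_natCast, ← ENNReal.ofReal_mul (Nat.cast_nonneg n)]
  apply ENNReal.ofReal_le_ofReal
  rw [mul_one_div, div_le_div_iff₀ (by positivity) (by norm_num)]
  linarith

theorem stMain (hc : StConv) (hg : StGeo) : StMain := by
  have hH : ∀ n : ℕ, E (HCurves n) Gamma1 ≤ ENNReal.ofReal (1 / (2 * ((n:ℝ) + 1))) := by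
    intro n
    refine iSup₂_le fun A hA => ?_
    obtain ⟨c, d, h⟩ := curve hc hg n hA
    refine iInf₂_le_of_le ((fun t : ℝ => (((poly n c).eval t, (poly n d).eval t) : ℝ × ℝ)) ''
      Icc 0 1) ⟨poly n c, poly n d, poly_degree n c, poly_degree n d, rfl⟩ ?_
    rw [image_unit]
    simp only [poly_eval]
    exact h
  have hT : ∀ n : ℕ, E (TCurves n) Gamma1 ≤ ENNReal.ofReal (1 / (2 * ((n:ℝ) + 1))) := by
    intro n
    refine iSup₂_le fun A hA => ?_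
    obtain ⟨c, d, h⟩ := curve hc hg n hA
    refine iInf₂_le_of_le ((fun t : ℝ => ((trigPoly n c 0 t, trigPoly n d 0 t) : ℝ × ℝ)) ''
      Icc 0 (2 * Real.pi)) ⟨c, 0, d, 0, rfl⟩ ?_
    rw [image_circle]
    exact h
  exact ⟨hH, hT, lim_bound hH, lim_bound hT⟩

end Pool.Agent.K7.H21.PCFINAL
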