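import Pool.Agent.K7.H21.PD_MO2

/-!
# Project PD, job MO1 (helper21): convergence of mollifications in `L¹`
-/

set_option autoImplicit false

open MeasureTheory Filter Topology Convolution
open scoped ContDiff

namespace Pool.Agent.K7.H21.PDMO

open Pool.Agent.K7.H81.PD

variable {N : ℕ}

/-- the mollification -/
noncomputable def T (φ u : E N → ℝ) (x : E N) : ℝ := ∫ y, φ (x - y) * u y

theorem T_conv (φ u : E N → ℝ) : T φ u = (u ⋆[Lm, volume] φ) := conv_eq u φ

theorem T_int {u : E N → ℝ} (b : ContDiffBump (0 : E N)) (hu : Integrable u) :
    Integrable (T (b.normed volume) u) := by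
  rw [T_conv]
  exact hu.integrable_convolution Lm b.integrable_normed

theorem T_exists {u : E N → ℝ} (b : ContDiffBump (0 : E N)) (hu : Integrable u) (x : E N) :
    Integrable (fun y => b.normed volume (x - y) * u y) := by
  have h2 : ConvolutionExists u (b.normed volume) Lm volume :=
    (b.hasCompactSupport_normed).convolutionExists_right Lm hu.locallyIntegrable
      b.continuous_normed
  refine (h2 x).congr (Eventually.of_forall fun y => ?_)
  simp [mul_comm]

theorem T_sub {u v : E N → ℝ} (b : ContDiffBump (0 : E N)) (hu : Integrable u)
    (hv : Integrable v) (x : E N) :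
    T (b.normed volume) (fun y => u y - v y) x = T (b.normed volume) u x - T (b.normed volume) v x := by
  unfold T
  rw [← integral_sub (T_exists b hu x) (T_exists b hv x)]
  refine integral_congr_ae (Eventually.of_forall fun y => ?_)
  simp only [mul_sub]

/-- the mollification is a contraction of `L¹` -/
theorem T_norm {u : E N → ℝ} (b : ContDiffBump (0 : E N)) (hu : Integrable u) :
    ∫ x, |T (b.normed volume) u x| ≤ ∫ x, |u x| := by
  have hn : Integrable (fun y => |u y|) := hu.abs
  calc ∫ x, |T (b.normed volume) u x| ≤ ∫ x, T (b.normed volume) (fun y => |u y|) x := by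
        refine integral_mono (T_int b hu).abs (T_int b hn) fun x => ?_
        unfold T
        refine (abs_integral_le_integral_abs).trans (le_of_eq ?_)
        refine integral_congr_ae (Eventually.of_forall fun y => ?_)
        simp only [abs_mul, abs_of_nonneg (b.nonneg_normed _)]
    _ = ∫ x, |u x| := by
        rw [T_conv, integral_convolution Lm hn b.integrable_normed, b.integral_normed]
        simp

/-- mollifications of a continuous function at a point -/
theorem T_near {g : E N → ℝ} (b : ContDiffBump (0 : E N)) (hg : Continuous g) {x : E N} {ε : ℝ}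
    (h : ∀ y ∈ Metric.ball x b.rOut, dist (g y) (g x) ≤ ε) :
    |T (b.normed volume) g x - g x| ≤ ε := by
  have h1 := b.dist_normed_convolution_le (μ := (volume : Measure (E N)))
    hg.aestronglyMeasurable h
  rw [Real.dist_eq, convolution_eq_swap] at h1
  exact h1

theorem mo1 : StMo1 := by
  intro N u b hu hb
  rw [Metric.tendsto_atTop]
  intro ε hε
  obtain ⟨g, hgc, hgu, hg, hgi⟩ := hu.exists_hasCompactSupport_integral_sub_le
    (show (0 : ℝ) < ε / 4 by positivity)
  have hgu' : ∫ x, |u x - g x| ≤ ε / 4 := hgu
  -- uniform continuity
  have huc := hgc.uniformContinuous_of_continuous hg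
  set K : Set (E N) := Metric.cthickening 1 (tsupport g) with hK
  have hKc : IsCompact K := hgc.cthickening
  have hKf : volume K ≠ ⊤ := hKc.measure_lt_top.ne
  set V : ℝ := (volume K).toReal with hV
  have hV0 : 0 ≤ V := ENNReal.toReal_nonneg
  set η : ℝ := ε / (4 * (V + 1)) with hη
  have hη0 : 0 < η := by positivity
  obtain ⟨δ, hδ, hgδ⟩ := Metric.uniformContinuous_iff.1 huc η hη0
  obtain ⟨k₀, hk₀⟩ := Metric.tendsto_atTop.1 hb (min δ 1) (by positivity)
  refine ⟨k₀, fun k hk => ?_⟩
  have hr : (b k).rOut < min δ 1 := by
    have := hk₀ k hk
    rw [Real.dist_eq, sub_zero, abs_of_pos (b k).rOut_pos] at this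
    exact this
  have hr1 : (b k).rOut < δ := lt_of_lt_of_le hr (min_le_left _ _)
  have hr2 : (b k).rOut < 1 := lt_of_lt_of_le hr (min_le_right _ _)
  have hTg : ∀ x, |T ((b k).normed volume) g x - g x| ≤ K.indicator (fun _ => η) x := by
    intro x
    by_cases hx : x ∈ K
    · rw [Set.indicator_of_mem hx]
      refine T_near (b k) hg fun y hy => ?_
      exact (hgδ (lt_trans (Metric.mem_ball.1 hy) hr1)).le
    · rw [Set.indicator_of_notMem hx]
      refine T_near (b k) hg fun y hy => ?_
      have h0 : ∀ z, dist z x < 1 → g z = 0 := by
        intro z hz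
        by_contra hgz
        apply hx
        have hz1 : z ∈ tsupport g := subset_tsupport g hgz
        rw [hK]
        exact Metric.mem_cthickening_of_dist_le x z 1 _ hz1 (by rw [dist_comm]; exact hz.le)
      rw [h0 y (lt_trans (Metric.mem_ball.1 hy) hr2), h0 x (by simp)]
      simp
  have hKm : MeasurableSet K := hKc.measurableSet
  have hind : Integrable (K.indicator (fun _ => η)) (volume : Measure (E N)) :=
    (integrableOn_const hKf).integrable_indicator hKm
  have hI : ∫ x, |T ((b k).normed volume) g x - g x| ≤ ε / 4 := by
    calc ∫ x, |T ((b k).normed volume) g x - g x| ≤ ∫ x, K.indicator (fun _ => η) x :=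
          integral_mono ((T_int (b k) hgi).sub hgi).abs hind hTg
      _ = V * η := by
          rw [integral_indicator hKm, setIntegral_const, smul_eq_mul]
          rfl
      _ ≤ ε / 4 := by
          rw [hη, mul_div_assoc', div_le_div_iff₀ (by positivity) (by norm_num)]
          nlinarith
  have hsub : Integrable (fun x => u x - g x) := hu.sub hgi
  have h2 : ∫ x, |T ((b k).normed volume) (fun y => u y - g y) x| ≤ ε / 4 :=
    (T_norm (b k) hsub).trans hgu'
  have hmain : ∫ x, |T ((b k).normed volume) u x - u x| ≤ 3 * (ε / 4) := by
    calc ∫ x, |T ((b k).normed volume) u x - u x|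
        ≤ ∫ x, ((|T ((b k).normed volume) (fun y => u y - g y) x| +
            |T ((b k).normed volume) g x - g x|) + |u x - g x|) := by
          refine integral_mono ((T_int (b k) hu).sub hu).abs
            (((T_int (b k) hsub).abs.add ((T_int (b k) hgi).sub hgi).abs).add hsub.abs)
            fun x => ?_
          have e1 := T_sub (b k) hu hgi x
          have e2 : T ((b k).normed volume) u x - u x =
              (T ((b k).normed volume) (fun y => u y - g y) x +
              (T ((b k).normed volume) g x - g x)) - (u x - g x) := by
            rw [e1]; ring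
          show |T ((b k).normed volume) u x - u x| ≤ _
          rw [e2]
          refine (abs_sub _ _).trans ?_
          have := abs_add_le (T ((b k).normed volume) (fun y => u y - g y) x)
            (T ((b k).normed volume) g x - g x)
          linarith
      _ = (∫ x, |T ((b k).normed volume) (fun y => u y - g y) x|) +
            (∫ x, |T ((b k).normed volume) g x - g x|) + ∫ x, |u x - g x| := by
          rw [integral_add, integral_add]
          · exact (T_int (b k) hsub).abs
          · exact ((T_int (b k) hgi).sub hgi).abs
          · exact (T_int (b k) hsub).abs.add ((T_int (b k) hgi).sub hgi).abs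
          · exact hsub.abs
      _ ≤ 3 * (ε / 4) := by linarith
  have h0 : 0 ≤ ∫ x, |T ((b k).normed volume) u x - u x| := integral_nonneg fun x => abs_nonneg _
  have e : (∫ x, |(∫ y, (b k).normed volume (x - y) * u y) - u x|) =
      ∫ x, |T ((b k).normed volume) u x - u x| := rfl
  rw [e, Real.dist_eq, sub_zero, abs_of_nonneg h0]
  linarith

end Pool.Agent.K7.H21.PDMO
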