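import Pool.Agent.K7.H81.PD.Stm

/-!
# Project PD, job MO2 (helper21): the Laplacian of a mollification
-/

set_option autoImplicit false

open MeasureTheory Filter Topology Convolution
open scoped ContDiff

namespace Pool.Agent.K7.H21.PDMO

open Pool.Agent.K7.H81.PD

variable {N : ℕ}

/-- the multiplication -/
noncomputable abbrev Lm : ℝ →L[ℝ] ℝ →L[ℝ] ℝ := ContinuousLinearMap.mul ℝ ℝ

theorem conv_eq (u φ : E N → ℝ) :
    (fun x => ∫ y, φ (x - y) * u y) = (u ⋆[Lm, volume] φ) := by
  funext x
  rw [convolution_def]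
  refine integral_congr_ae (Eventually.of_forall fun y => ?_)
  simp [mul_comm]

theorem pd_contDiff {φ : E N → ℝ} (hφ : ContDiff ℝ ∞ φ) (i : Fin N) : ContDiff ℝ ∞ (pd i φ) := by
  unfold pd
  exact (hφ.fderiv_right (m := ∞) (by simp)).clm_apply contDiff_const

theorem pd_compact {φ : E N → ℝ} (hc : HasCompactSupport φ) (i : Fin N) :
    HasCompactSupport (pd i φ) := by
  unfold pd
  exact hc.fderiv_apply (𝕜 := ℝ) _

theorem pd_conv {u φ : E N → ℝ} (hu : Integrable u) (hc : HasCompactSupport φ)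
    (hφ : ContDiff ℝ ∞ φ) (i : Fin N) :
    pd i (u ⋆[Lm, volume] φ) = (u ⋆[Lm, volume] (pd i φ)) := by
  funext x
  have h1 : ContDiff ℝ 1 φ := hφ.of_le (by exact_mod_cast le_top)
  have h := hc.hasFDerivAt_convolution_right Lm hu.locallyIntegrable h1 x
  unfold pd
  rw [h.fderiv]
  exact convolution_precompR_apply Lm hu.locallyIntegrable (hc.fderiv (𝕜 := ℝ))
    (h1.continuous_fderiv one_ne_zero) x _

theorem lap_conv {u φ : E N → ℝ} (hu : Integrable u) (hc : HasCompactSupport φ)
    (hφ : ContDiff ℝ ∞ φ) (x : E N) :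
    lap (u ⋆[Lm, volume] φ) x = ∫ y, lap φ (x - y) * u y := by
  unfold lap
  have h1 : ∀ i, pd i (pd i (u ⋆[Lm, volume] φ)) x = ∫ y, pd i (pd i φ) (x - y) * u y := by
    intro i
    rw [pd_conv hu hc hφ i, pd_conv hu (pd_compact hc i) (pd_contDiff hφ i) i]
    exact (congrFun (conv_eq u (pd i (pd i φ))) x).symm
  rw [Finset.sum_congr rfl fun i _ => h1 i, ← integral_finsetSum]
  · refine integral_congr_ae (Eventually.of_forall fun y => ?_)
    simp only [Finset.sum_mul]
  · intro i _
    have h2 : ConvolutionExists u (pd i (pd i φ)) Lm volume :=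
      (pd_compact (pd_compact hc i) i).convolutionExists_right Lm hu.locallyIntegrable
        (pd_contDiff (pd_contDiff hφ i) i).continuous
    have h3 := h2 x
    refine h3.congr (Eventually.of_forall fun y => ?_)
    simp [mul_comm]

theorem pd_refl {φ : E N → ℝ} (hφ : ContDiff ℝ ∞ φ) (x : E N) (i : Fin N) :
    pd i (fun z => φ (x - z)) = fun z => -pd i φ (x - z) := by
  funext z
  unfold pd
  have h1 : HasFDerivAt φ (fderiv ℝ φ (x - z)) (x - z) :=
    (hφ.differentiable (by simp)).differentiableAt.hasFDerivAt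
  have h2 : HasFDerivAt (fun z : E N => x - z) (-ContinuousLinearMap.id ℝ (E N)) z :=
    (hasFDerivAt_id z).const_sub x
  have h3 := h1.comp z h2
  have h4 : fderiv ℝ (fun z => φ (x - z)) z = (fderiv ℝ φ (x - z)).comp
      (-ContinuousLinearMap.id ℝ (E N)) := h3.fderiv
  rw [h4]
  simp

theorem lap_refl {φ : E N → ℝ} (hφ : ContDiff ℝ ∞ φ) (x y : E N) :
    lap (fun z => φ (x - z)) y = lap φ (x - y) := by
  unfold lap
  refine Finset.sum_congr rfl fun i _ => ?_
  rw [pd_refl hφ x i]
  have h1 := pd_refl (pd_contDiff hφ i) x i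
  have h2 : pd i (fun z => -pd i φ (x - z)) y = -pd i (fun z => pd i φ (x - z)) y := by
    unfold pd
    rw [fderiv_fun_neg]
    rfl
  rw [h2, h1]
  simp

theorem mo2 : StMo2 := by
  intro N u b hu
  have hc : HasCompactSupport (b.normed volume) := b.hasCompactSupport_normed
  have hφ : ContDiff ℝ ∞ (b.normed volume) := b.contDiff_normed
  rw [conv_eq u (b.normed volume)]
  refine ⟨hc.contDiff_convolution_right Lm hu.locallyIntegrable hφ, fun x => ?_⟩
  rw [lap_conv hu hc hφ x]
  refine integral_congr_ae (Eventually.of_forall fun y => ?_)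
  simp only [lap_refl hφ]

end Pool.Agent.K7.H21.PDMO
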