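import Pool.Agent.K7.H81.PD.Stm

/-!
# Project PD, job WSP (helper21)
-/

set_option autoImplicit false

open MeasureTheory Filter Topology
open scoped ContDiff

namespace Pool.Agent.K7.H21.PDWSP

open Pool.Agent.K7.H81.PD

theorem cci_sub {N : ℕ} {Ω : Set (E N)} {φ ψ : E N → ℝ} (h : Cci Ω φ) (h' : Cci Ω ψ) :
    Cci Ω (fun x => φ x - ψ x) := by
  refine ⟨h.1.sub h'.1, h.2.1.sub h'.2.1, ?_⟩
  refine (tsupport_sub φ ψ).trans ?_
  exact Set.union_subset h.2.2 h'.2.2

theorem pd_sub {N : ℕ} {φ ψ : E N → ℝ} (h : ContDiff ℝ ∞ φ) (h' : ContDiff ℝ ∞ ψ) (i : Fin N)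
    (x : E N) : pd i (fun x => φ x - ψ x) x = pd i φ x - pd i ψ x := by
  unfold pd
  rw [fderiv_fun_sub (h.differentiable (by simp)).differentiableAt
    (h'.differentiable (by simp)).differentiableAt]
  rfl

theorem cci_int {N : ℕ} {Ω : Set (E N)} {φ : E N → ℝ} (h : Cci Ω φ) : IntegrableOn φ Ω :=
  (h.1.continuous.integrable_of_hasCompactSupport h.2.1).integrableOn

theorem pd_int {N : ℕ} {Ω : Set (E N)} {φ : E N → ℝ} (h : Cci Ω φ) (i : Fin N) :
    IntegrableOn (pd i φ) Ω := by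
  have h1 : ContDiff ℝ ∞ (pd i φ) := by
    unfold pd
    exact (h.1.fderiv_right (m := ∞) (by simp)).clm_apply contDiff_const
  have h2 : HasCompactSupport (pd i φ) := by
    unfold pd
    exact h.2.1.fderiv_apply (𝕜 := ℝ) _
  exact (h1.continuous.integrable_of_hasCompactSupport h2).integrableOn

theorem lim_sub {N : ℕ} {Ω : Set (E N)} {a b : ℕ → E N → ℝ} {v v' w : E N → ℝ}
    (ha : ∀ k, IntegrableOn (a k) Ω) (hb : ∀ k, IntegrableOn (b k) Ω) (hv : IntegrableOn v Ω)
    (hv' : IntegrableOn v' Ω) (hw : ∀ᵐ x ∂(volume.restrict Ω), w x = v x - v' x)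
    (h1 : Tendsto (fun k => ∫ x in Ω, |a k x - v x|) atTop (𝓝 0))
    (h2 : Tendsto (fun k => ∫ x in Ω, |b k x - v' x|) atTop (𝓝 0)) :
    Tendsto (fun k => ∫ x in Ω, |(a k x - b k x) - w x|) atTop (𝓝 0) := by
  have h3 := h1.add h2
  rw [add_zero] at h3
  refine squeeze_zero (fun k => integral_nonneg fun x => abs_nonneg _) (fun k => ?_) h3
  have q1 : IntegrableOn (fun x => |a k x - v x|) Ω := ((ha k).sub hv).abs
  have q2 : IntegrableOn (fun x => |b k x - v' x|) Ω := ((hb k).sub hv').abs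
  rw [← integral_add q1 q2]
  refine integral_mono_of_nonneg (Eventually.of_forall fun x => abs_nonneg _) (q1.add q2) ?_
  filter_upwards [hw] with x hx
  rw [hx]
  have e : (a k x - b k x) - (v x - v' x) = (a k x - v x) - (b k x - v' x) := by ring
  rw [e]
  exact abs_sub _ _

theorem t : StWsp := by
  intro N Ω v v' w _ hv hv' hw
  obtain ⟨i1, g, φ, c1, j1, l1, m1⟩ := hv
  obtain ⟨i2, g', φ', c2, j2, l2, m2⟩ := hv'
  have hwi : IntegrableOn w Ω := by
    have h1 : IntegrableOn (fun x => v x - v' x) Ω := i1.sub i2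
    exact h1.congr (hw.mono fun x hx => hx.symm)
  refine ⟨hwi, fun i x => g i x - g' i x, fun k x => φ k x - φ' k x,
    fun k => cci_sub (c1 k) (c2 k), fun i => (j1 i).sub (j2 i), ?_, fun i => ?_⟩
  · exact lim_sub (fun k => cci_int (c1 k)) (fun k => cci_int (c2 k)) i1 i2 hw l1 l2
  · have h1 := lim_sub (fun k => pd_int (c1 k) i) (fun k => pd_int (c2 k) i) (j1 i) (j2 i)
      (w := fun x => g i x - g' i x) (Eventually.of_forall fun x => rfl) (m1 i) (m2 i)
    refine h1.congr fun k => ?_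
    refine integral_congr_ae (Eventually.of_forall fun x => ?_)
    simp only [pd_sub (c1 k).1 (c2 k).1 i x]

end Pool.Agent.K7.H21.PDWSP
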