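import Pool.Agent.K7.H16.SG.Stm

set_option autoImplicit false

open Finset

namespace Pool.Agent.K7.H21.SGANA

open Pool.Agent.K7.H16.SG

/-- the convolution -/
def cv (m : ℕ) : ℚ := ∑ i ∈ range (m + 1), c i * c (m - i)

theorem cv_eq (m : ℕ) : (∑ i : Fin (m + 1), c i * c (m - i)) = cv m := by
  rw [cv, Finset.sum_range]

theorem c_zero : c 0 = 1 := by rw [c]

theorem c_succ (m : ℕ) : c (m + 1) = min (cv m)
      ((1 + 1 / ((m : ℚ) + 1)) / 2 * cv m + c m - c m / ((m : ℚ) + 1)) := by
  rw [c, cv_eq]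

theorem c_nonneg (n : ℕ) : 0 ≤ c n := by
  induction n using Nat.strong_induction_on with
  | _ n ih =>
    match n with
    | 0 => rw [c_zero]; norm_num
    | m + 1 =>
      rw [c_succ]
      have hcv : 0 ≤ cv m := by
        unfold cv
        apply Finset.sum_nonneg
        intro i hi
        rw [Finset.mem_range] at hi
        exact mul_nonneg (ih i hi) (ih (m - i) (by omega))
      have hm : 0 ≤ c m := ih m (by omega)
      have hm1 : (0 : ℚ) < (m : ℚ) + 1 := by positivity
      apply le_min hcv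
      have h1 : c m / ((m : ℚ) + 1) ≤ c m := by
        apply div_le_self hm
        linarith
      have h2 : 0 ≤ (1 + 1 / ((m : ℚ) + 1)) / 2 * cv m := by positivity
      linarith

theorem c1 : c 1 = 1 := by
  rw [c_succ, cv]; norm_num [Finset.sum_range_succ, c_zero]
theorem c2 : c 2 = 2 := by
  rw [c_succ, cv]; norm_num [Finset.sum_range_succ, c_zero, c1]
theorem c3 : c 3 = 14/3 := by
  rw [c_succ, cv]; norm_num [Finset.sum_range_succ, c_zero, c1, c2]
theorem c4 : c 4 = 71/6 := by
  rw [c_succ, cv]; norm_num [Finset.sum_range_succ, c_zero, c1, c2, c3]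
theorem c5 : c 5 = 95/3 := by
  rw [c_succ, cv]; norm_num [Finset.sum_range_succ, c_zero, c1, c2, c3, c4]
theorem c6 : c 6 = 3169/36 := by
  rw [c_succ, cv]; norm_num [Finset.sum_range_succ, c_zero, c1, c2, c3, c4, c5]
theorem c7 : c 7 = 10573/42 := by
  rw [c_succ, cv]; norm_num [Finset.sum_range_succ, c_zero, c1, c2, c3, c4, c5, c6]
theorem c8 : c 8 = 494513/672 := by
  rw [c_succ, cv]; norm_num [Finset.sum_range_succ, c_zero, c1, c2, c3, c4, c5, c6, c7]
theorem c9 : c 9 = 19859351/9072 := by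
  rw [c_succ, cv]; norm_num [Finset.sum_range_succ, c_zero, c1, c2, c3, c4, c5, c6, c7, c8]

/-- the point -/
def x : ℚ := 20 / 71

/-- partial sums -/
def P (n : ℕ) : ℚ := ∑ k ∈ range n, c k * x ^ k

/-- partial sums of the convolution -/
def C (n : ℕ) : ℚ := ∑ k ∈ range n, cv k * x ^ k

theorem x_pos : 0 < x := by norm_num [x]

theorem P_nonneg (n : ℕ) : 0 ≤ P n :=
  Finset.sum_nonneg (fun k _ => mul_nonneg (c_nonneg k) (pow_nonneg x_pos.le k))

theorem C_le (n : ℕ) : C n ≤ P n * P n := by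
  have h1 : C n = ∑ m ∈ range n, ∑ k ∈ range (m + 1),
      (fun i j => (c i * x ^ i) * (c j * x ^ j)) k (m - k) := by
    unfold C cv
    apply Finset.sum_congr rfl
    intro m _
    rw [Finset.sum_mul]
    apply Finset.sum_congr rfl
    intro k hk
    rw [Finset.mem_range] at hk
    have : x ^ m = x ^ k * x ^ (m - k) := by
      rw [← pow_add]; congr 1; omega
    simp only [this]
    ring
  rw [h1, Finset.sum_range_diag_flip n (fun i j => (c i * x ^ i) * (c j * x ^ j))]
  unfold P
  rw [Finset.sum_mul_sum]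
  apply Finset.sum_le_sum
  intro i _
  apply Finset.sum_le_sum_of_subset_of_nonneg
  · intro j hj
    rw [Finset.mem_range] at *
    omega
  · intro j _ _
    exact mul_nonneg (mul_nonneg (c_nonneg i) (pow_nonneg x_pos.le i))
      (mul_nonneg (c_nonneg j) (pow_nonneg x_pos.le j))

theorem cv_nonneg (m : ℕ) : 0 ≤ cv m :=
  Finset.sum_nonneg (fun i _ => mul_nonneg (c_nonneg i) (c_nonneg _))

theorem step (m : ℕ) (hm : 9 ≤ m) : c (m + 1) ≤ 11 / 20 * cv m + c m := by
  rw [c_succ]
  refine (min_le_right _ _).trans ?_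
  have hm1 : (10 : ℚ) ≤ (m : ℚ) + 1 := by
    have : (9 : ℚ) ≤ (m : ℚ) := by exact_mod_cast hm
    linarith
  have h1 : 1 / ((m : ℚ) + 1) ≤ 1 / 10 := one_div_le_one_div_of_le (by norm_num) hm1
  have h2 : 0 ≤ c m / ((m : ℚ) + 1) := div_nonneg (c_nonneg m) (by linarith)
  have h3 : (1 + 1 / ((m : ℚ) + 1)) / 2 * cv m ≤ 11 / 20 * cv m := by
    apply mul_le_mul_of_nonneg_right _ (cv_nonneg m)
    linarith
  linarith

theorem main (n : ℕ) : P (n + 10) ≤ 832 / 1000 + 11 / 20 * x * C (n + 9) + x * P (n + 9) := by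
  induction n with
  | zero =>
    norm_num [P, C, cv, Finset.sum_range_succ, c_zero, c1, c2, c3, c4, c5, c6, c7, c8, c9, x]
  | succ n ih =>
    have e1 : P (n + 1 + 10) = P (n + 10) + c (n + 10) * x ^ (n + 10) := by
      unfold P
      rw [show n + 1 + 10 = (n + 10) + 1 by ring, Finset.sum_range_succ]
    have e2 : P (n + 1 + 9) = P (n + 9) + c (n + 9) * x ^ (n + 9) := by
      unfold P
      rw [show n + 1 + 9 = (n + 9) + 1 by ring, Finset.sum_range_succ]
    have e3 : C (n + 1 + 9) = C (n + 9) + cv (n + 9) * x ^ (n + 9) := by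
      unfold C
      rw [show n + 1 + 9 = (n + 9) + 1 by ring, Finset.sum_range_succ]
    rw [e1, e2, e3]
    have hs := step (n + 9) (by omega)
    have hx : (0 : ℚ) ≤ x ^ (n + 10) := pow_nonneg x_pos.le _
    have hs2 := mul_le_mul_of_nonneg_right hs hx
    have hpow : x ^ (n + 10) = x ^ (n + 9) * x := pow_succ x (n + 9)
    have h4 : (11 / 20 * cv (n + 9) + c (n + 9)) * x ^ (n + 10) =
      11 / 20 * x * (cv (n + 9) * x ^ (n + 9)) + x * (c (n + 9) * x ^ (n + 9)) := by
      rw [hpow]; ring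
    have h5 : c (n + 10) * x ^ (n + 10) ≤
      11 / 20 * x * (cv (n + 9) * x ^ (n + 9)) + x * (c (n + 9) * x ^ (n + 9)) := by
      rw [← h4]; exact hs2
    linarith

theorem P_mono (n : ℕ) : P n ≤ P (n + 1) := by
  unfold P
  rw [Finset.sum_range_succ]
  have := mul_nonneg (c_nonneg n) (pow_nonneg x_pos.le n)
  linarith

theorem P_monotone : Monotone P := monotone_nat_of_le_succ P_mono

theorem P_le (n : ℕ) : P (n + 9) ≤ 51 / 22 := by
  induction n with
  | zero =>
    norm_num [P, Finset.sum_range_succ, c_zero, c1, c2, c3, c4, c5, c6, c7, c8, x]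
  | succ n ih =>
    have h1 := main n
    rw [show n + 1 + 9 = n + 10 by ring]
    have h2 := C_le (n + 9)
    have h3 := P_nonneg (n + 9)
    have h4 : P (n + 9) * P (n + 9) ≤ 51 / 22 * (51 / 22) := mul_le_mul ih ih h3 (by norm_num)
    have h5 : C (n + 9) ≤ 51 / 22 * (51 / 22) := h2.trans h4
    have h6 : 11 / 20 * x * C (n + 9) ≤ 11 / 20 * x * (51 / 22 * (51 / 22)) :=
      mul_le_mul_of_nonneg_left h5 (by have := x_pos; positivity)
    have h7 : x * P (n + 9) ≤ x * (51 / 22) := mul_le_mul_of_nonneg_left ih x_pos.le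
    have h8 : (832 : ℚ) / 1000 + 11 / 20 * x * (51 / 22 * (51 / 22)) + x * (51 / 22) ≤ 51 / 22 := by
      norm_num [x]
    linarith

theorem t : StAna := by
  refine ⟨51 / 22, fun n => ?_⟩
  have h1 : c n * x ^ n ≤ 51 / 22 := by
    have h2 : P (n + 1) ≤ P (n + 1 + 9) := P_monotone (by omega)
    have h3 := P_le (n + 1)
    have h4 := P_nonneg n
    have h5 : P (n + 1) = P n + c n * x ^ n := by
      unfold P
      rw [Finset.sum_range_succ]
    linarith
  have h2 : (x : ℚ) ^ n * (71 / 20) ^ n = 1 := by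
    rw [← mul_pow]
    norm_num [x]
  calc c n = (c n * x ^ n) * (71 / 20) ^ n := by rw [mul_assoc, h2, mul_one]
    _ ≤ 51 / 22 * (71 / 20) ^ n := mul_le_mul_of_nonneg_right h1 (by positivity)



end Pool.Agent.K7.H21.SGANA
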